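import Pool.Agent.J4.H79.GS.Prob

set_option autoImplicit false

/-!
# Random signs with prescribed local correlations
-/

namespace Pool.Agent.J4.H79.GS

open Finset Pool.Agent.Y394.AT Pool.Agent.R50.MC

/-- the sign of a bit -/
def sg (b : Bool) : ℝ := if b then 1 else -1

theorem sg_sq (b : Bool) : sg b * sg b = 1 := by
  unfold sg
  split_ifs <;> norm_num

theorem sg_abs (b : Bool) : |sg b| = 1 := by
  unfold sg
  split_ifs <;> norm_num

section moments

variable {V T : Type} [Fintype T] [DecidableEq T] {Q : ℕ}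

theorem av_sgc (hQ : 0 < Q) : av (fun c : Bool × Fin Q => sg c.1) = 0 := by
  unfold av
  rw [← Finset.univ_product_univ, Finset.sum_product]
  have : ∑ x : Bool, ∑ y : Fin Q, sg (x, y).1 = 0 := by
    simp [sg]
  rw [this, zero_div]

theorem av_sg (hQ : 0 < Q) (t : T) (h : (T → Bool × Fin Q) → ℝ)
    (hh : ∀ ω c, h (Function.update ω t c) = h ω) :
    av (fun ω => sg (ω t).1 * h ω) = 0 := by
  rw [av_update t]
  have h1 : ∀ ω : T → Bool × Fin Q, av (fun c => sg ((Function.update ω t c) t).1 *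
      h (Function.update ω t c)) = 0 := by
    intro ω
    have h2 : (fun c : Bool × Fin Q => sg ((Function.update ω t c) t).1 *
        h (Function.update ω t c)) = fun c => h ω * sg c.1 := by
      funext c
      rw [hh, Function.update_self, mul_comm]
    rw [h2, av_mul, av_sgc hQ, mul_zero]
  unfold av
  have h3 : ∑ ω : T → Bool × Fin Q, (∑ c : Bool × Fin Q, sg ((Function.update ω t c) t).1 *
      h (Function.update ω t c)) / (Fintype.card (Bool × Fin Q) : ℝ) = 0 := by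
    apply Finset.sum_eq_zero
    intro ω _
    exact h1 ω
  rw [h3, zero_div]

variable {n : ℕ}

/-- a random combination -/
noncomputable def xx (f : Fin n → V → ℝ) (s : Finset (Fin n)) (v : V)
    (ω : Fin n ⊕ V → Bool × Fin Q) : ℝ := ∑ j ∈ s, sg (ω (Sum.inl j)).1 * f j v

open Classical in
theorem xx_free (f : Fin n → V → ℝ) (s : Finset (Fin n)) (v : V) (j : Fin n) (hj : j ∉ s)
    (ω : Fin n ⊕ V → Bool × Fin Q) (c : Bool × Fin Q) :
    xx f s v (Function.update ω (Sum.inl j) c) = xx f s v ω := by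
  unfold xx
  apply Finset.sum_congr rfl
  intro i hi
  rw [Function.update_of_ne]
  intro h
  rw [Sum.inl.injEq] at h
  exact hj (h ▸ hi)

open Classical in
theorem xx_free' (f : Fin n → V → ℝ) (s : Finset (Fin n)) (v w : V)
    (ω : Fin n ⊕ V → Bool × Fin Q) (c : Bool × Fin Q) :
    xx f s v (Function.update ω (Sum.inr w) c) = xx f s v ω := by
  unfold xx
  apply Finset.sum_congr rfl
  intro i hi
  rw [Function.update_of_ne]
  simp

variable [Fintype V]

open Classical in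
theorem m2 (hQ : 0 < Q) (f : Fin n → V → ℝ) (s : Finset (Fin n)) (u v : V) :
    av (fun ω : Fin n ⊕ V → Bool × Fin Q => xx f s u ω * xx f s v ω) =
      ∑ j ∈ s, f j u * f j v := by
  have hne : Nonempty (Fin n ⊕ V → Bool × Fin Q) := ⟨fun _ => (true, ⟨0, hQ⟩)⟩
  induction s using Finset.induction_on with
  | empty =>
    unfold xx
    simp [av]
  | insert j s hj ih =>
    have h1 : (fun ω : Fin n ⊕ V → Bool × Fin Q => xx f (insert j s) u ω * xx f (insert j s) v ω) =
        fun ω => (xx f s u ω * xx f s v ω + sg (ω (Sum.inl j)).1 *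
          (f j u * xx f s v ω + f j v * xx f s u ω)) + f j u * f j v := by
      funext ω
      unfold xx
      rw [Finset.sum_insert hj, Finset.sum_insert hj]
      have := sg_sq (ω (Sum.inl j)).1
      linear_combination (f j u * f j v) * this
    rw [h1, av_add, av_add, ih, av_const, av_sg hQ, Finset.sum_insert hj]
    · ring
    · intro ω c
      rw [xx_free f s v j hj, xx_free f s u j hj]

open Classical in
theorem m4 (hQ : 0 < Q) (f : Fin n → V → ℝ) (s : Finset (Fin n)) (v : V) :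
    av (fun ω : Fin n ⊕ V → Bool × Fin Q => xx f s v ω ^ 4) ≤
      3 * (∑ j ∈ s, f j v ^ 2) ^ 2 := by
  have hne : Nonempty (Fin n ⊕ V → Bool × Fin Q) := ⟨fun _ => (true, ⟨0, hQ⟩)⟩
  induction s using Finset.induction_on with
  | empty =>
    unfold xx
    simp [av]
  | insert j s hj ih =>
    have h1 : (fun ω : Fin n ⊕ V → Bool × Fin Q => xx f (insert j s) v ω ^ 4) =
        fun ω => (xx f s v ω ^ 4 + sg (ω (Sum.inl j)).1 *
          (4 * f j v * xx f s v ω ^ 3 + 4 * f j v ^ 3 * xx f s v ω)) +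
            (6 * f j v ^ 2 * (xx f s v ω * xx f s v ω) + f j v ^ 4) := by
      funext ω
      unfold xx
      rw [Finset.sum_insert hj]
      have h2 := sg_sq (ω (Sum.inl j)).1
      obtain ⟨a, ha⟩ : ∃ a, a = sg (ω (Sum.inl j)).1 := ⟨_, rfl⟩
      obtain ⟨x, hx⟩ : ∃ x, x = ∑ i ∈ s, sg (ω (Sum.inl i)).1 * f i v := ⟨_, rfl⟩
      rw [← ha, ← hx]
      rw [← ha] at h2
      have h3 : a ^ 2 = 1 := by rw [sq]; exact h2
      have h4 : a ^ 3 = a := by
        calc a ^ 3 = a ^ 2 * a := by ring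
          _ = a := by rw [h3, one_mul]
      have h5 : a ^ 4 = 1 := by
        calc a ^ 4 = a ^ 2 * a ^ 2 := by ring
          _ = 1 := by rw [h3, one_mul]
      calc (a * f j v + x) ^ 4 = a ^ 4 * f j v ^ 4 + 4 * a ^ 3 * f j v ^ 3 * x +
            6 * a ^ 2 * f j v ^ 2 * x ^ 2 + 4 * a * f j v * x ^ 3 + x ^ 4 := by ring
        _ = _ := by
            rw [h3, h4, h5]
            ring
    have h2 := m2 hQ f s v v
    rw [h1, av_add, av_add, av_sg hQ, av_add, av_mul, av_const, h2, Finset.sum_insert hj]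
    · have h3 : ∑ j ∈ s, f j v * f j v = ∑ j ∈ s, f j v ^ 2 := by
        apply Finset.sum_congr rfl
        intro i _
        ring
      rw [h3]
      nlinarith [ih, sq_nonneg (f j v ^ 2)]
    · intro ω c
      rw [xx_free f s v j hj]

/-! ### biased coins -/

/-- a biased coin -/
noncomputable def cb (Q : ℕ) (y : ℝ) (k : Fin Q) : Bool := decide ((k : ℝ) < Q * (1 + y) / 2)

theorem cb_mean (hQ : 0 < Q) {y : ℝ} (hy : |y| ≤ 1) :
    |av (fun c : Bool × Fin Q => sg (cb Q y c.2)) - y| ≤ 2 / Q := by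
  have hQ' : (0 : ℝ) < Q := by exact_mod_cast hQ
  obtain ⟨z, hz⟩ : ∃ z : ℝ, z = Q * (1 + y) / 2 := ⟨_, rfl⟩
  have hy2 := abs_le.1 hy
  have hz0 : 0 ≤ z := by
    rw [hz]
    apply div_nonneg _ (by norm_num)
    exact mul_nonneg hQ'.le (by linarith)
  have hzQ : z ≤ Q := by
    rw [hz]
    nlinarith
  obtain ⟨N, hN⟩ : ∃ N : ℕ, N = ⌈z⌉₊ := ⟨_, rfl⟩
  have hNQ : N ≤ Q := by rw [hN]; exact Nat.ceil_le.2 hzQ
  have h1 : ∑ k : Fin Q, sg (cb Q y k) = 2 * N - Q := by
    have h2 : ∀ k : Fin Q, sg (cb Q y k) = 2 * (if (k : ℕ) < N then (1 : ℝ) else 0) - 1 := by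
      intro k
      unfold cb sg
      rw [← hz]
      by_cases h : (k : ℕ) < N
      · have h3 : ((k : ℕ) : ℝ) < z := by
          rw [hN] at h
          exact Nat.lt_ceil.1 h
        rw [if_pos h]
        simp [h3]
        norm_num
      · have h3 : ¬ ((k : ℕ) : ℝ) < z := by
          rw [hN] at h
          exact fun h' => h (Nat.lt_ceil.2 h')
        rw [if_neg h]
        simp [h3]
    rw [Finset.sum_congr rfl (fun k _ => h2 k), Finset.sum_sub_distrib, ← Finset.mul_sum]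
    have h3 : ∑ k : Fin Q, (if (k : ℕ) < N then (1 : ℝ) else 0) = N := by
      rw [Fin.sum_univ_eq_sum_range (fun k => if k < N then (1 : ℝ) else 0) Q, ← Finset.sum_filter,
        Finset.sum_const, nsmul_eq_mul, mul_one]
      congr 1
      have : (range Q).filter (fun k => k < N) = range N := by
        ext k
        simp only [Finset.mem_filter, Finset.mem_range]
        omega
      rw [this, Finset.card_range]
    rw [h3]
    simp
  have h2 : av (fun c : Bool × Fin Q => sg (cb Q y c.2)) = (2 * N - Q) / Q := by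
    unfold av
    rw [← Finset.univ_product_univ, Finset.sum_product]
    have h3 : ∀ x : Bool, ∑ k : Fin Q, sg (cb Q y (x, k).2) = 2 * N - Q := fun x => h1
    rw [Finset.sum_congr rfl (fun x _ => h3 x)]
    simp
    field_simp
  rw [h2]
  have h3 : z ≤ N := by rw [hN]; exact Nat.le_ceil z
  have h4 : (N : ℝ) < z + 1 := by rw [hN]; exact Nat.ceil_lt_add_one hz0
  have h5 : (2 * (N : ℝ) - Q) / Q - y = 2 * (N - z) / Q := by
    rw [hz]
    field_simp
    ring
  rw [h5, abs_div, abs_of_pos hQ', abs_of_nonneg (by linarith)]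
  apply div_le_div_of_nonneg_right _ hQ'.le
  linarith

/-- the random sign of `v` -/
noncomputable def yy (f : Fin n → V → ℝ) (M : ℝ) (v : V) (ω : Fin n ⊕ V → Bool × Fin Q) : ℝ :=
  M⁻¹ * clip M (xx f univ v ω)

/-- the random bit of `v` -/
noncomputable def bt (f : Fin n → V → ℝ) (M : ℝ) (v : V) (ω : Fin n ⊕ V → Bool × Fin Q) : Bool :=
  cb Q (yy f M v ω) (ω (Sum.inr v)).2

omit [Fintype V] in
theorem yy_abs {M : ℝ} (hM : 0 < M) (f : Fin n → V → ℝ) (v : V)
    (ω : Fin n ⊕ V → Bool × Fin Q) : |yy f M v ω| ≤ 1 := by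
  unfold yy
  rw [abs_mul, abs_of_pos (inv_pos.2 hM), inv_mul_le_iff₀ hM, mul_one]
  exact clip_abs hM _

open Classical in
theorem pair (hQ : 0 < Q) {M : ℝ} (hM : 0 < M) (f : Fin n → V → ℝ) {u v : V} (huv : u ≠ v)
    (hu : ∑ j, f j u ^ 2 ≤ 1) (hv : ∑ j, f j v ^ 2 ≤ 1) :
    av (fun ω : Fin n ⊕ V → Bool × Fin Q => sg (bt f M u ω) * sg (bt f M v ω)) ≤
      (M ^ 2)⁻¹ * (∑ j, f j u * f j v) + 12 / M ^ 4 + 4 / Q := by
  have hne : Nonempty (Fin n ⊕ V → Bool × Fin Q) := ⟨fun _ => (true, ⟨0, hQ⟩)⟩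
  have hneC : Nonempty (Bool × Fin Q) := ⟨(true, ⟨0, hQ⟩)⟩
  obtain ⟨μ, hμ⟩ : ∃ μ : ℝ → ℝ, μ = fun y => av (fun c : Bool × Fin Q => sg (cb Q y c.2)) :=
    ⟨_, rfl⟩
  have hupd : ∀ (w : V) (x : V) (ω : Fin n ⊕ V → Bool × Fin Q) (c : Bool × Fin Q),
      yy f M x (Function.update ω (Sum.inr w) c) = yy f M x ω := by
    intro w x ω c
    unfold yy
    rw [xx_free']
  have h1 : av (fun ω : Fin n ⊕ V → Bool × Fin Q => sg (bt f M u ω) * sg (bt f M v ω)) =
      av (fun ω : Fin n ⊕ V → Bool × Fin Q => sg (bt f M v ω) * μ (yy f M u ω)) := by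
    rw [av_update (Sum.inr u)]
    congr 1
    funext ω
    rw [hμ]
    simp only
    rw [← av_mul]
    congr 1
    funext c
    have e1 : bt f M u (Function.update ω (Sum.inr u) c) = cb Q (yy f M u ω) c.2 := by
      unfold bt
      rw [hupd, Function.update_self]
    have e2 : bt f M v (Function.update ω (Sum.inr u) c) = bt f M v ω := by
      unfold bt
      rw [hupd, Function.update_of_ne]
      intro h
      rw [Sum.inr.injEq] at h
      exact huv h.symm
    rw [e1, e2, mul_comm]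
  have h2 : av (fun ω : Fin n ⊕ V → Bool × Fin Q => sg (bt f M v ω) * μ (yy f M u ω)) =
      av (fun ω : Fin n ⊕ V → Bool × Fin Q => μ (yy f M u ω) * μ (yy f M v ω)) := by
    rw [av_update (Sum.inr v)]
    congr 1
    funext ω
    have e0 : ∀ c : Bool × Fin Q, sg (bt f M v (Function.update ω (Sum.inr v) c)) *
        μ (yy f M u (Function.update ω (Sum.inr v) c)) =
        μ (yy f M u ω) * sg (cb Q (yy f M v ω) c.2) := by
      intro c
      have e1 : bt f M v (Function.update ω (Sum.inr v) c) = cb Q (yy f M v ω) c.2 := by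
        unfold bt
        rw [hupd, Function.update_self]
      rw [e1, hupd, mul_comm]
    rw [show (fun c : Bool × Fin Q => sg (bt f M v (Function.update ω (Sum.inr v) c)) *
        μ (yy f M u (Function.update ω (Sum.inr v) c))) =
        fun c => μ (yy f M u ω) * sg (cb Q (yy f M v ω) c.2) from funext e0, av_mul]
    rw [hμ]
  have hμb : ∀ y : ℝ, |y| ≤ 1 → |μ y| ≤ 1 := by
    intro y _
    rw [hμ, abs_le]
    constructor
    · have : av (fun _ : Bool × Fin Q => (-1 : ℝ)) = -1 := av_const _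
      rw [← this]
      apply av_mono
      intro c
      have := sg_abs (cb Q y c.2)
      exact (abs_le.1 this.le).1
    · have : av (fun _ : Bool × Fin Q => (1 : ℝ)) = 1 := av_const _
      rw [← this]
      apply av_mono
      intro c
      have := sg_abs (cb Q y c.2)
      exact (abs_le.1 this.le).2
  have hμd : ∀ y : ℝ, |y| ≤ 1 → |μ y - y| ≤ 2 / Q := by
    intro y hy
    rw [hμ]
    exact cb_mean hQ hy
  have h3 : ∀ ω : Fin n ⊕ V → Bool × Fin Q, μ (yy f M u ω) * μ (yy f M v ω) ≤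
      yy f M u ω * yy f M v ω + 4 / Q := by
    intro ω
    obtain ⟨a, ha⟩ : ∃ a, a = yy f M u ω := ⟨_, rfl⟩
    obtain ⟨b, hb⟩ : ∃ b, b = yy f M v ω := ⟨_, rfl⟩
    have ha1 : |a| ≤ 1 := by rw [ha]; exact yy_abs hM f u ω
    have hb1 : |b| ≤ 1 := by rw [hb]; exact yy_abs hM f v ω
    rw [← ha, ← hb]
    have h4 : μ a * μ b - a * b = (μ a - a) * μ b + a * (μ b - b) := by ring
    have h5 : (μ a - a) * μ b ≤ 2 / Q * 1 := by
      refine (le_abs_self _).trans ?_
      rw [abs_mul]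
      exact mul_le_mul (hμd a ha1) (hμb b hb1) (abs_nonneg _) (by positivity)
    have h6 : a * (μ b - b) ≤ 1 * (2 / Q) := by
      refine (le_abs_self _).trans ?_
      rw [abs_mul]
      exact mul_le_mul ha1 (hμd b hb1) (abs_nonneg _) (by norm_num)
    have h7 : (4 : ℝ) / Q = 2 / Q * 1 + 1 * (2 / Q) := by ring
    rw [h7]
    linarith
  rw [h1, h2]
  refine (av_mono h3).trans ?_
  rw [av_add, av_const]
  have h4 : ∀ ω : Fin n ⊕ V → Bool × Fin Q, yy f M u ω * yy f M v ω ≤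
      (M ^ 2)⁻¹ * (xx f univ u ω * xx f univ v ω + ((2 / M ^ 2) * xx f univ u ω ^ 4 +
        (2 / M ^ 2) * xx f univ v ω ^ 4)) := by
    intro ω
    unfold yy
    have h5 := clip_mul hM (xx f univ u ω) (xx f univ v ω)
    have h6 : M⁻¹ * clip M (xx f univ u ω) * (M⁻¹ * clip M (xx f univ v ω)) =
        (M ^ 2)⁻¹ * (clip M (xx f univ u ω) * clip M (xx f univ v ω)) := by
      field_simp
    rw [h6]
    apply mul_le_mul_of_nonneg_left _ (by positivity)
    refine h5.trans (le_of_eq ?_)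
    ring
  have h5 := av_mono h4
  rw [av_mul, av_add, av_add, av_mul, av_mul, m2 hQ] at h5
  have h6 := m4 hQ f univ u
  have h7 := m4 hQ f univ v
  have hnn : ∀ w, 0 ≤ ∑ j, f j w ^ 2 := fun w => Finset.sum_nonneg fun _ _ => sq_nonneg _
  have h8 : 3 * (∑ j, f j u ^ 2) ^ 2 ≤ 3 := by nlinarith [hnn u]
  have h9 : 3 * (∑ j, f j v ^ 2) ^ 2 ≤ 3 := by nlinarith [hnn v]
  have h10 : (M ^ 2)⁻¹ * (∑ j, f j u * f j v +
      (2 / M ^ 2 * av (fun ω : Fin n ⊕ V → Bool × Fin Q => xx f univ u ω ^ 4) +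
        2 / M ^ 2 * av (fun ω : Fin n ⊕ V → Bool × Fin Q => xx f univ v ω ^ 4))) ≤
      (M ^ 2)⁻¹ * (∑ j, f j u * f j v + (2 / M ^ 2 * 3 + 2 / M ^ 2 * 3)) := by
    apply mul_le_mul_of_nonneg_left _ (by positivity)
    have e1 := mul_le_mul_of_nonneg_left (h6.trans h8) (show 0 ≤ 2 / M ^ 2 by positivity)
    have e2 := mul_le_mul_of_nonneg_left (h7.trans h9) (show 0 ≤ 2 / M ^ 2 by positivity)
    linarith
  have h11 : (M ^ 2)⁻¹ * (∑ j, f j u * f j v + (2 / M ^ 2 * 3 + 2 / M ^ 2 * 3)) =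
      (M ^ 2)⁻¹ * (∑ j, f j u * f j v) + 12 / M ^ 4 := by
    field_simp
    ring
  linarith

open Classical in
/-- **Expected correlation with the neighbours.** -/
theorem av_Z (hQ : 0 < Q) {M D ε : ℝ} (hM : 0 < M) (hD : 0 < D) (H : SimpleGraph V)
    (f : Fin n → V → ℝ) (hf1 : ∀ v, ∑ j, f j v ^ 2 ≤ 1)
    (hf2 : ∀ j v, f j v * ∑ u ∈ nb H v, f j u ≤ -(ε * D) * f j v ^ 2) (v : V)
    (hdeg : ((nb H v).card : ℝ) ≤ D) :
    av (fun ω : Fin n ⊕ V → Bool × Fin Q =>
      D⁻¹ * ∑ u ∈ nb H v, sg (bt f M u ω) * sg (bt f M v ω)) ≤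
      -(ε / M ^ 2) * (∑ j, f j v ^ 2) + 12 / M ^ 4 + 4 / Q := by
  rw [av_mul, av_sum]
  have h1 : ∑ u ∈ nb H v, av (fun ω : Fin n ⊕ V → Bool × Fin Q =>
      sg (bt f M u ω) * sg (bt f M v ω)) ≤
      ∑ u ∈ nb H v, ((M ^ 2)⁻¹ * (∑ j, f j u * f j v) + (12 / M ^ 4 + 4 / Q)) := by
    apply Finset.sum_le_sum
    intro u hu
    rw [mem_nb] at hu
    have := pair hQ hM f hu.ne.symm (hf1 u) (hf1 v)
    linarith
  have h2 : ∑ u ∈ nb H v, ((M ^ 2)⁻¹ * (∑ j, f j u * f j v) + (12 / M ^ 4 + 4 / Q)) =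
      (M ^ 2)⁻¹ * ∑ j, f j v * ∑ u ∈ nb H v, f j u +
        ((nb H v).card : ℝ) * (12 / M ^ 4 + 4 / Q) := by
    rw [Finset.sum_add_distrib, Finset.sum_const, nsmul_eq_mul, ← Finset.mul_sum,
      Finset.sum_comm]
    congr 2
    apply Finset.sum_congr rfl
    intro j _
    rw [Finset.mul_sum]
    apply Finset.sum_congr rfl
    intro u _
    ring
  have h3 : ∑ j, f j v * ∑ u ∈ nb H v, f j u ≤ -(ε * D) * ∑ j, f j v ^ 2 := by
    rw [Finset.mul_sum]
    exact Finset.sum_le_sum fun j _ => hf2 j v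
  have hQ' : (0 : ℝ) < Q := by exact_mod_cast hQ
  have h4 : ((nb H v).card : ℝ) * (12 / M ^ 4 + 4 / Q) ≤ D * (12 / M ^ 4 + 4 / Q) :=
    mul_le_mul_of_nonneg_right hdeg (by positivity)
  have h5 : (M ^ 2)⁻¹ * ∑ j, f j v * ∑ u ∈ nb H v, f j u ≤
      (M ^ 2)⁻¹ * (-(ε * D) * ∑ j, f j v ^ 2) := mul_le_mul_of_nonneg_left h3 (by positivity)
  have h6 : D⁻¹ * ∑ u ∈ nb H v, av (fun ω : Fin n ⊕ V → Bool × Fin Q =>
      sg (bt f M u ω) * sg (bt f M v ω)) ≤
      D⁻¹ * ((M ^ 2)⁻¹ * (-(ε * D) * ∑ j, f j v ^ 2) + D * (12 / M ^ 4 + 4 / Q)) := by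
    apply mul_le_mul_of_nonneg_left _ (by positivity)
    linarith
  refine h6.trans (le_of_eq ?_)
  field_simp
  ring

end moments

end Pool.Agent.J4.H79.GS
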