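import Pool.Agent.J4.H79.GS.Peel

set_option autoImplicit false

/-!
# Covering a graph by negative directions living on balls of radius two
-/

namespace Pool.Agent.J4.H79.GS

open Finset Pool.Agent.Y394.AT Pool.Agent.R50.MC

variable {V : Type} [Fintype V] {H : SimpleGraph V}

open Classical in
theorem neg_eig (B : Finset V) (e : ℝ) {f0 : V → ℝ} (hf0 : ∀ v, v ∉ B → f0 v = 0)
    (hlt : q H f0 < -e * N2 f0) (he : 0 ≤ e) :
    ∃ f : V → ℝ, (∃ v, f v ≠ 0) ∧ (∀ v, v ∉ B → f v = 0) ∧
      ∀ v, f v * ∑ u ∈ nb H v, f u ≤ -e * f v ^ 2 := by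
  obtain ⟨M, hMd⟩ : ∃ M : Matrix V V ℝ, M = fun u v =>
    (if H.Adj u v ∧ u ∈ B ∧ v ∈ B then (1 : ℝ) else 0) + (if u = v then e else 0) := ⟨_, rfl⟩
  have hM : M.IsHermitian := by
    apply Matrix.IsHermitian.ext
    intro i j
    rw [hMd]
    simp only [star_trivial]
    congr 1
    · by_cases h : H.Adj i j ∧ i ∈ B ∧ j ∈ B
      · rw [if_pos h, if_pos ⟨h.1.symm, h.2.2, h.2.1⟩]
      · rw [if_neg h, if_neg (fun h' => h ⟨h'.1.symm, h'.2.2, h'.2.1⟩)]
    · by_cases h : i = j
      · rw [if_pos h, if_pos h.symm]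
      · rw [if_neg h, if_neg (fun h' => h h'.symm)]
  have hmul : ∀ (f : V → ℝ) (v : V), M.mulVec f v =
      (if v ∈ B then ∑ u ∈ nb H v ∩ B, f u else 0) + e * f v := by
    intro f v
    rw [hMd]
    simp only [Matrix.mulVec, dotProduct]
    have h1 : ∀ u : V, ((if H.Adj v u ∧ v ∈ B ∧ u ∈ B then (1 : ℝ) else 0) +
        (if v = u then e else 0)) * f u =
        (if H.Adj v u ∧ v ∈ B ∧ u ∈ B then f u else 0) + (if v = u then e * f u else 0) := by
      intro u
      split_ifs <;> ring
    rw [Finset.sum_congr rfl (fun u _ => h1 u), Finset.sum_add_distrib]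
    congr 1
    · by_cases hv : v ∈ B
      · rw [if_pos hv, ← Finset.sum_filter]
        apply Finset.sum_congr _ (fun _ _ => rfl)
        ext u
        rw [Finset.mem_filter, Finset.mem_inter, mem_nb]
        simp [hv]
      · rw [if_neg hv]
        apply Finset.sum_eq_zero
        intro u _
        rw [if_neg (fun h => hv h.2.1)]
    · rw [Finset.sum_ite_eq]
      simp
  have hform : ∀ f : V → ℝ, (∀ v, v ∉ B → f v = 0) → ∀ v,
      f v * M.mulVec f v = f v * ∑ u ∈ nb H v, f u + e * f v ^ 2 := by
    intro f hf v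
    rw [hmul]
    have h1 : ∑ u ∈ nb H v, f u = ∑ u ∈ nb H v ∩ B, f u := by
      symm
      apply Finset.sum_subset Finset.inter_subset_left
      intro x hx hx2
      apply hf
      intro h
      exact hx2 (Finset.mem_inter.2 ⟨hx, h⟩)
    rw [h1]
    by_cases hv : v ∈ B
    · rw [if_pos hv]
      ring
    · rw [hf v hv]
      ring
  have hnot : ¬ M.PosSemidef := by
    intro hpsd
    have h1 := hpsd.dotProduct_mulVec_nonneg f0
    simp only [dotProduct, star_trivial] at h1
    rw [Finset.sum_congr rfl (fun v _ => hform f0 hf0 v), Finset.sum_add_distrib] at h1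
    have h2 : ∑ v, f0 v * ∑ u ∈ nb H v, f0 u = q H f0 := by
      unfold q
      rw [bb_eq]
    have h3 : ∑ v, e * f0 v ^ 2 = e * N2 f0 := by
      unfold N2
      rw [Finset.mul_sum]
    rw [h2, h3] at h1
    linarith
  rw [hM.posSemidef_iff_eigenvalues_nonneg] at hnot
  rw [Pi.le_def] at hnot
  push Not at hnot
  obtain ⟨i, hi⟩ := hnot
  obtain ⟨f, hf⟩ : ∃ f : V → ℝ, f = ⇑(hM.eigenvectorBasis i) := ⟨_, rfl⟩
  have hev := hM.mulVec_eigenvectorBasis i
  rw [← hf] at hev
  have hi' : hM.eigenvalues i < 0 := hi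
  have hfB : ∀ v, v ∉ B → f v = 0 := by
    intro v hv
    have h1 := congrFun hev v
    rw [hmul, if_neg hv, Pi.smul_apply, smul_eq_mul] at h1
    have h2 : (e - hM.eigenvalues i) * f v = 0 := by linarith
    rcases mul_eq_zero.1 h2 with h3 | h3
    · linarith
    · exact h3
  refine ⟨f, ?_, hfB, ?_⟩
  · by_contra hcon
    push Not at hcon
    apply hM.eigenvectorBasis.orthonormal.ne_zero i
    ext v
    have h1 := hcon v
    rw [hf] at h1
    simpa using h1
  · intro v
    have h1 := hform f hfB v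
    rw [congrFun hev v, Pi.smul_apply, smul_eq_mul] at h1
    have h2 : hM.eigenvalues i * f v ^ 2 ≤ 0 :=
      mul_nonpos_of_nonpos_of_nonneg hi'.le (sq_nonneg _)
    nlinarith

open Classical in
/-- **Covering lemma.** -/
theorem cover [Nonempty V] (H : SimpleGraph V) (e : ℝ) (he : 0 ≤ e) :
    ∃ (n : ℕ) (f : ℕ → V → ℝ), (∀ j, n ≤ j → f j = fun _ => 0) ∧
      (∀ v, ∑ j ∈ range n, f j v ^ 2 ≤ 1) ∧
      (∀ j, ∃ z, ∀ w, f j w ≠ 0 → w ∈ ball2 H univ z) ∧
      (∀ j v, f j v * ∑ u ∈ nb H v, f j u ≤ -e * f j v ^ 2) ∧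
      ∀ z, ∑ j ∈ range n, f j z ^ 2 < 1 → ∀ g : V → ℝ,
        (∀ v, v ∉ ball2 H (univ.filter (fun v => ∑ j ∈ range n, f j v ^ 2 < 1)) z → g v = 0) →
        -e * N2 g ≤ q H g := by
  have key : ∀ (k n : ℕ) (f : ℕ → V → ℝ), (∀ j, n ≤ j → f j = fun _ => 0) →
      (∀ v, ∑ j ∈ range n, f j v ^ 2 ≤ 1) →
      (∀ j, ∃ z, ∀ w, f j w ≠ 0 → w ∈ ball2 H univ z) →
      (∀ j v, f j v * ∑ u ∈ nb H v, f j u ≤ -e * f j v ^ 2) →
      (univ.filter (fun v => ∑ j ∈ range n, f j v ^ 2 < 1)).card ≤ k →
      ∃ (n : ℕ) (f : ℕ → V → ℝ), (∀ j, n ≤ j → f j = fun _ => 0) ∧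
        (∀ v, ∑ j ∈ range n, f j v ^ 2 ≤ 1) ∧
        (∀ j, ∃ z, ∀ w, f j w ≠ 0 → w ∈ ball2 H univ z) ∧
        (∀ j v, f j v * ∑ u ∈ nb H v, f j u ≤ -e * f j v ^ 2) ∧
        ∀ z, ∑ j ∈ range n, f j z ^ 2 < 1 → ∀ g : V → ℝ,
          (∀ v, v ∉ ball2 H (univ.filter (fun v => ∑ j ∈ range n, f j v ^ 2 < 1)) z → g v = 0) →
          -e * N2 g ≤ q H g := by
    intro k
    induction k with
    | zero =>
      intro n f h0 h1 h2 h3 h4
      refine ⟨n, f, h0, h1, h2, h3, ?_⟩
      intro z hz
      exfalso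
      have h5 : z ∈ univ.filter (fun v => ∑ j ∈ range n, f j v ^ 2 < 1) :=
        Finset.mem_filter.2 ⟨Finset.mem_univ _, hz⟩
      rw [Nat.le_zero, Finset.card_eq_zero] at h4
      rw [h4] at h5
      exact Finset.notMem_empty _ h5
    | succ k ih =>
      intro n f h0 h1 h2 h3 h4
      by_cases hdone : ∀ z, ∑ j ∈ range n, f j z ^ 2 < 1 → ∀ g : V → ℝ,
          (∀ v, v ∉ ball2 H (univ.filter (fun v => ∑ j ∈ range n, f j v ^ 2 < 1)) z → g v = 0) →
          -e * N2 g ≤ q H g
      · exact ⟨n, f, h0, h1, h2, h3, hdone⟩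
      push Not at hdone
      obtain ⟨z, hz, g, hg, hlt⟩ := hdone
      obtain ⟨U, hU⟩ : ∃ U : Finset V,
        U = univ.filter (fun v => ∑ j ∈ range n, f j v ^ 2 < 1) := ⟨_, rfl⟩
      rw [← hU] at hg h4
      obtain ⟨h, ⟨v1, hv1⟩, hhB, hhe⟩ := neg_eig (H := H) (ball2 H U z) e hg hlt he
      obtain ⟨S, hS⟩ : ∃ S : Finset V, S = univ.filter (fun v => h v ≠ 0) := ⟨_, rfl⟩
      have hSU : S ⊆ U := by
        intro v hv
        rw [hS, Finset.mem_filter] at hv
        by_contra hcon
        apply hv.2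
        apply hhB
        intro h5
        exact hcon (ball2_sub _ _ h5)
      obtain ⟨v0, hv0, hmin⟩ := Finset.exists_min_image S
        (fun v => (1 - ∑ j ∈ range n, f j v ^ 2) / h v ^ 2)
        ⟨v1, by rw [hS]; exact Finset.mem_filter.2 ⟨Finset.mem_univ _, hv1⟩⟩
      have hv0U := hSU hv0
      rw [hU, Finset.mem_filter] at hv0U
      have hh0 : h v0 ≠ 0 := by
        rw [hS, Finset.mem_filter] at hv0
        exact hv0.2
      obtain ⟨t, ht⟩ : ∃ t : ℝ, t = Real.sqrt ((1 - ∑ j ∈ range n, f j v0 ^ 2) / h v0 ^ 2) :=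
        ⟨_, rfl⟩
      have ht2 : t ^ 2 = (1 - ∑ j ∈ range n, f j v0 ^ 2) / h v0 ^ 2 := by
        rw [ht, Real.sq_sqrt]
        exact div_nonneg (by linarith [hv0U.2]) (sq_nonneg _)
      have hsum : ∀ v, ∑ j ∈ range (n + 1),
          (Function.update f n (fun w => t * h w)) j v ^ 2 =
          ∑ j ∈ range n, f j v ^ 2 + t ^ 2 * h v ^ 2 := by
        intro v
        rw [Finset.sum_range_succ]
        congr 1
        · apply Finset.sum_congr rfl
          intro j hj
          rw [Finset.mem_range] at hj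
          rw [Function.update_of_ne (by omega)]
        · rw [Function.update_self]
          ring
      apply ih (n + 1) (Function.update f n (fun w => t * h w))
      · intro j hj
        rw [Function.update_of_ne (by omega)]
        exact h0 j (by omega)
      · intro v
        rw [hsum]
        by_cases hv : v ∈ S
        · have h5 := hmin v hv
          rw [← ht2] at h5
          have h6 : 0 < h v ^ 2 := by
            rw [hS, Finset.mem_filter] at hv
            have := hv.2
            positivity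
          rw [le_div_iff₀ h6] at h5
          linarith
        · have h5 : h v = 0 := by
            by_contra hcon
            exact hv (by rw [hS]; exact Finset.mem_filter.2 ⟨Finset.mem_univ _, hcon⟩)
          rw [h5]
          have := h1 v
          nlinarith
      · intro j
        by_cases hj : j = n
        · subst hj
          refine ⟨z, ?_⟩
          intro w hw
          rw [Function.update_self] at hw
          have h5 : h w ≠ 0 := by
            intro h6
            apply hw
            rw [h6, mul_zero]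
          have h6 : w ∈ ball2 H U z := by
            by_contra hcon
            exact h5 (hhB w hcon)
          unfold ball2 at h6 ⊢
          rw [Finset.mem_filter] at h6 ⊢
          refine ⟨Finset.mem_univ _, ?_⟩
          rcases h6.2 with h7 | h7 | ⟨x, _, h7⟩
          · exact Or.inl h7
          · exact Or.inr (Or.inl h7)
          · exact Or.inr (Or.inr ⟨x, Finset.mem_univ _, h7⟩)
        · rw [Function.update_of_ne hj]
          exact h2 j
      · intro j v
        by_cases hj : j = n
        · subst hj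
          rw [Function.update_self]
          rw [← Finset.mul_sum]
          have h5 := mul_le_mul_of_nonneg_left (hhe v) (sq_nonneg t)
          have e1 : t * h v * (t * ∑ u ∈ nb H v, h u) = t ^ 2 * (h v * ∑ u ∈ nb H v, h u) := by
            ring
          rw [e1]
          refine h5.trans (le_of_eq ?_)
          ring
        · rw [Function.update_of_ne hj]
          exact h3 j v
      · have h5 : univ.filter (fun v => ∑ j ∈ range (n + 1),
            (Function.update f n (fun w => t * h w)) j v ^ 2 < 1) ⊆ U.erase v0 := by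
          intro v hv
          rw [Finset.mem_filter, hsum] at hv
          rw [Finset.mem_erase]
          constructor
          · rintro rfl
            have h6 := hv.2
            rw [ht2] at h6
            have h7 : (1 - ∑ j ∈ range n, f j v ^ 2) / h v ^ 2 * h v ^ 2 =
                1 - ∑ j ∈ range n, f j v ^ 2 := by
              field_simp
            rw [h7] at h6
            linarith
          · rw [hU, Finset.mem_filter]
            refine ⟨Finset.mem_univ _, ?_⟩
            have h6 : 0 ≤ t ^ 2 * h v ^ 2 := by positivity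
            linarith [hv.2]
        have h6 := Finset.card_le_card h5
        have h7 : v0 ∈ U := hSU hv0
        rw [Finset.card_erase_of_mem h7] at h6
        omega
  exact key _ 0 (fun _ _ => 0) (fun _ _ => rfl) (by simp)
    (fun j => ⟨Classical.arbitrary V, fun w hw => absurd rfl hw⟩) (by simp) le_rfl

end Pool.Agent.J4.H79.GS
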