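import Pool.Agent.J4.H79.GS.Main

set_option autoImplicit false

/-!
# Colourings in which the colour of a vertex is bounded in terms of its degree
-/

namespace Pool.Agent.J4.H79.GS

open Finset Pool.Agent.Y394.AT Pool.Agent.R50.MC

theorem geom {x : ℝ} (hx : 7 / 5 ≤ x) (hx2 : x ≤ 2) (j : ℕ) :
    ∑ i ∈ range (j + 1), x ^ (i + 1) ≤ 10 * x ^ j := by
  induction j with
  | zero =>
    simp
    linarith
  | succ j ih =>
    rw [Finset.sum_range_succ]
    have h0 : 0 < x ^ j := by positivity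
    have h1 : x ^ (j + 1 + 1) = x ^ 2 * x ^ j := by ring
    have h2 : x ^ (j + 1) = x * x ^ j := by ring
    rw [h1, h2]
    have h3 : 10 + x ^ 2 ≤ 10 * x := by nlinarith
    nlinarith

open Classical in
/-- **Local version.** -/
theorem main_local (m k : ℕ) (T : SimpleGraph (Fin (m + 1))) (hT : T.IsTree) :
    ∃ (q : ℕ) (C : ℝ), 2 ≤ q ∧ 0 < C ∧ ∀ (V : Type) [Fintype V]
      (G : SimpleGraph V), G.CliqueFree k → IsEmpty (T ↪g G) →
      ∃ c : V → ℕ, (∀ u v, G.Adj u v → c u ≠ c v) ∧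
        ∀ v, (c v : ℝ) < C * (1 + ((nb G v).card : ℝ)) ^ (1 - 1 / (q : ℝ)) := by
  obtain ⟨q, C, hq, hC, hmain⟩ := main_deg m k T hT
  refine ⟨q, 10 * C, hq, by positivity, ?_⟩
  intro V _ G hfree hemp
  obtain ⟨cl, hcl⟩ : ∃ cl : V → ℕ, cl = fun v => Nat.log 2 (1 + (nb G v).card) := ⟨_, rfl⟩
  have hcl1 : ∀ v, 2 ^ cl v ≤ 1 + (nb G v).card := by
    intro v
    rw [hcl]
    exact Nat.pow_log_le_self 2 (by omega)
  have hcl2 : ∀ v, (nb G v).card ≤ 2 ^ (cl v + 1) := by
    intro v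
    have : 1 + (nb G v).card < 2 ^ (cl v + 1) := by
      rw [hcl]
      exact Nat.lt_pow_succ_log_self (by norm_num) _
    omega
  have hcol : ∀ j, ∃ N : ℕ,
      (cell G (univ.filter (fun v => cl v = j)) (fun _ => 0)).Colorable N ∧
      (N : ℝ) ≤ C * (((2 ^ (j + 1) : ℕ) : ℝ)) ^ (1 - 1 / (q : ℝ)) := by
    intro j
    apply hmain (2 ^ (j + 1)) Nat.one_le_two_pow V _ (cell_clique hfree _ _)
      (cell_tree hT hemp _ _)
    intro v
    by_cases hv : v ∈ univ.filter (fun v => cl v = j)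
    · rw [Finset.mem_filter] at hv
      have h1 := hcl2 v
      rw [hv.2] at h1
      refine le_trans (Finset.card_le_card ?_) h1
      intro u hu
      rw [mem_nb] at hu ⊢
      exact hu.1
    · rw [nb_cell_not _ hv]
      simp
  choose N hN1 hN2 using hcol
  obtain ⟨col⟩ : Nonempty (∀ j, (cell G (univ.filter (fun v => cl v = j))
      (fun _ => 0)).Coloring (Fin (N j))) := ⟨fun j => (hN1 j).some⟩
  obtain ⟨x, hx⟩ : ∃ x : ℝ, x = (2 : ℝ) ^ (1 - 1 / (q : ℝ)) := ⟨_, rfl⟩
  have hqr : (2 : ℝ) ≤ q := by exact_mod_cast hq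
  have hq1 : 1 / (q : ℝ) ≤ 1 / 2 := by
    apply one_div_le_one_div_of_le (by norm_num) hqr
  have hq0 : 0 < 1 / (q : ℝ) := by positivity
  have hx1 : 7 / 5 ≤ x := by
    have h1 : (2 : ℝ) ^ (1 / 2 : ℝ) ≤ x := by
      rw [hx]
      apply Real.rpow_le_rpow_of_exponent_le (by norm_num)
      linarith
    refine le_trans ?_ h1
    rw [← Real.sqrt_eq_rpow]
    apply Real.le_sqrt_of_sq_le
    norm_num
  have hx2 : x ≤ 2 := by
    rw [hx]
    calc (2 : ℝ) ^ (1 - 1 / (q : ℝ)) ≤ (2 : ℝ) ^ (1 : ℝ) := by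
          apply Real.rpow_le_rpow_of_exponent_le (by norm_num)
          linarith
      _ = 2 := Real.rpow_one _
  have hpow : ∀ j : ℕ, (((2 ^ j : ℕ) : ℝ)) ^ (1 - 1 / (q : ℝ)) = x ^ j := by
    intro j
    rw [hx]
    push_cast
    rw [← Real.rpow_natCast, ← Real.rpow_natCast, ← Real.rpow_mul (by norm_num),
      ← Real.rpow_mul (by norm_num), mul_comm]
  refine ⟨fun v => ∑ i ∈ range (cl v), N i + (col (cl v) v : ℕ), ?_, ?_⟩
  · intro u v huv heq
    have hlt : ∀ w, ∑ i ∈ range (cl w), N i + (col (cl w) w : ℕ) <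
        ∑ i ∈ range (cl w + 1), N i := by
      intro w
      rw [Finset.sum_range_succ]
      have := (col (cl w) w).2
      omega
    have hmono : ∀ a b, a ≤ b → ∑ i ∈ range a, N i ≤ ∑ i ∈ range b, N i := by
      intro a b hab
      apply Finset.sum_le_sum_of_subset
      exact Finset.range_mono hab
    have h1 := hlt u
    have h2 := hlt v
    simp only at heq
    rcases lt_trichotomy (cl u) (cl v) with h | h | h
    · have h3 := hmono (cl u + 1) (cl v) h
      omega
    · have key : ∀ j, cl u = j → cl v = j → (col j u : ℕ) ≠ (col j v : ℕ) := by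
        intro j hu hv h4
        refine (col j).valid ?_ (Fin.ext h4)
        exact ⟨huv, Finset.mem_filter.2 ⟨Finset.mem_univ _, hu⟩,
          Finset.mem_filter.2 ⟨Finset.mem_univ _, hv⟩, rfl⟩
      apply key (cl v) h rfl
      rw [h] at heq
      omega
    · have h3 := hmono (cl v + 1) (cl u) h
      omega
  · intro v
    have h1 : ((∑ i ∈ range (cl v), N i + (col (cl v) v : ℕ) : ℕ) : ℝ) <
        ((∑ i ∈ range (cl v + 1), N i : ℕ) : ℝ) := by
      have : ∑ i ∈ range (cl v), N i + (col (cl v) v : ℕ) < ∑ i ∈ range (cl v + 1), N i := by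
        rw [Finset.sum_range_succ]
        have := (col (cl v) v).2
        omega
      exact_mod_cast this
    refine lt_of_lt_of_le h1 ?_
    push_cast
    have h2 : ∑ i ∈ range (cl v + 1), (N i : ℝ) ≤ ∑ i ∈ range (cl v + 1), C * x ^ (i + 1) := by
      apply Finset.sum_le_sum
      intro i _
      have := hN2 i
      rw [hpow] at this
      exact this
    rw [← Finset.mul_sum] at h2
    have h3 := mul_le_mul_of_nonneg_left (geom hx1 hx2 (cl v)) hC.le
    have h4 : x ^ cl v ≤ (1 + ((nb G v).card : ℝ)) ^ (1 - 1 / (q : ℝ)) := by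
      rw [← hpow]
      apply Real.rpow_le_rpow (by positivity)
      · exact_mod_cast hcl1 v
      · linarith
    have h5 := mul_le_mul_of_nonneg_left h4 (show 0 ≤ 10 * C by positivity)
    linarith

end Pool.Agent.J4.H79.GS
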