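import Pool.Agent.J4.H79.GS.Rec

set_option autoImplicit false

/-!
# The bound in terms of the maximum degree
-/

namespace Pool.Agent.J4.H79.GS

open Finset Pool.Agent.Y394.AT Pool.Agent.R50.MC

theorem large (q : ℕ) {η : ℝ} (hη0 : 0 < η) :
    ∃ d0 : ℕ, ∀ d : ℕ, d0 ≤ d → ∀ N : ℕ, N = ⌈32 / η ^ 2 * Real.log (1 + d)⌉₊ + 4 →
      (N : ℝ) * ((6 * N) ^ (2 * q) * N) ≤ d := by
  obtain ⟨C3, hC3⟩ : ∃ C3 : ℝ, C3 = 64 / η ^ 2 + 5 := ⟨_, rfl⟩
  have hC30 : 0 < C3 := by rw [hC3]; positivity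
  obtain ⟨c, hc⟩ : ∃ c : ℝ, c = 1 / (6 ^ (2 * q) * C3 ^ (2 * q + 2)) := ⟨_, rfl⟩
  have hc0 : 0 < c := by rw [hc]; positivity
  have h1 := (Real.isLittleO_pow_log_id_atTop (n := 2 * q + 2)).bound hc0
  have h2 := tendsto_natCast_atTop_atTop.eventually h1
  rw [Filter.eventually_atTop] at h2
  obtain ⟨d1, hd1⟩ := h2
  refine ⟨max d1 3, ?_⟩
  intro d hd N hN
  have h3 := hd1 d (le_trans (le_max_left _ _) hd)
  have hd3 : 3 ≤ d := le_trans (le_max_right _ _) hd
  have hd3' : (3 : ℝ) ≤ d := by exact_mod_cast hd3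
  have hlog : 1 ≤ Real.log d := by
    rw [Real.le_log_iff_exp_le (by linarith)]
    have := Real.exp_one_lt_three
    linarith
  have hlog2 : Real.log (1 + d) ≤ 2 * Real.log d := by
    have h4 : Real.log (1 + d) ≤ Real.log ((d : ℝ) ^ 2) := by
      apply Real.log_le_log (by linarith)
      nlinarith
    rw [Real.log_pow] at h4
    exact_mod_cast h4
  have hlog0 : 0 ≤ Real.log (1 + d) := Real.log_nonneg (by linarith)
  have hN1 : (N : ℝ) ≤ C3 * Real.log d := by
    have h4 : (⌈32 / η ^ 2 * Real.log (1 + d)⌉₊ : ℝ) < 32 / η ^ 2 * Real.log (1 + d) + 1 :=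
      Nat.ceil_lt_add_one (by positivity)
    have h5 : 32 / η ^ 2 * Real.log (1 + d) ≤ 32 / η ^ 2 * (2 * Real.log d) :=
      mul_le_mul_of_nonneg_left hlog2 (by positivity)
    rw [hN, hC3]
    push_cast
    have h6 : (64 / η ^ 2 + 5) * Real.log d = 32 / η ^ 2 * (2 * Real.log d) + 5 * Real.log d := by
      ring
    rw [h6]
    linarith
  have hN0 : (0 : ℝ) ≤ N := Nat.cast_nonneg _
  have h4 : (N : ℝ) * ((6 * N) ^ (2 * q) * N) = 6 ^ (2 * q) * (N : ℝ) ^ (2 * q + 2) := by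
    rw [mul_pow]
    ring
  rw [h4]
  have h5 : (N : ℝ) ^ (2 * q + 2) ≤ C3 ^ (2 * q + 2) * Real.log d ^ (2 * q + 2) := by
    rw [← mul_pow]
    exact pow_le_pow_left₀ hN0 hN1 _
  simp only [id_eq, Real.norm_eq_abs] at h3
  rw [abs_of_nonneg (by positivity), abs_of_nonneg (by positivity), hc] at h3
  have h6 : Real.log d ^ (2 * q + 2) * (6 ^ (2 * q) * C3 ^ (2 * q + 2)) ≤ d := by
    have h7 : (0 : ℝ) < 6 ^ (2 * q) * C3 ^ (2 * q + 2) := by positivity
    calc Real.log d ^ (2 * q + 2) * (6 ^ (2 * q) * C3 ^ (2 * q + 2)) ≤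
          (1 / (6 ^ (2 * q) * C3 ^ (2 * q + 2)) * d) * (6 ^ (2 * q) * C3 ^ (2 * q + 2)) :=
          mul_le_mul_of_nonneg_right h3 h7.le
      _ = d := by field_simp
  have h7 := mul_le_mul_of_nonneg_left h5 (show (0 : ℝ) ≤ 6 ^ (2 * q) by positivity)
  refine h7.trans ?_
  refine le_trans (le_of_eq ?_) h6
  ring

open Classical in
/-- **The chromatic number is at most `C Δ ^ (1 - 1 / q)`.** -/
theorem main_deg (m k : ℕ) (T : SimpleGraph (Fin (m + 1))) (hT : T.IsTree) :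
    ∃ (q : ℕ) (C : ℝ), 2 ≤ q ∧ 0 < C ∧ ∀ d : ℕ, 1 ≤ d → ∀ (V : Type) [Fintype V]
      (G : SimpleGraph V), G.CliqueFree k → IsEmpty (T ↪g G) → (∀ v, (nb G v).card ≤ d) →
      ∃ N : ℕ, G.Colorable N ∧ (N : ℝ) ≤ C * (d : ℝ) ^ (1 - 1 / (q : ℝ)) := by
  obtain ⟨q, L, η, hq, hL, hLq, hη0, hη1, hsr⟩ := super_rounds m k T hT
  obtain ⟨d0, hd0⟩ := large q hη0
  refine ⟨q, d0 + 1, hq, by positivity, ?_⟩
  intro d
  induction d using Nat.strong_induction_on with
  | _ d ih =>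
    intro hd1 V _ G hfree hemp hd
    have hd1r : (1 : ℝ) ≤ d := by exact_mod_cast hd1
    have hq1 : 1 / (q : ℝ) ≤ 1 := by
      rw [div_le_one (by positivity)]
      exact_mod_cast (by omega : 1 ≤ q)
    by_cases hsmall : d < d0
    · refine ⟨d + 1, greedy_colour G hd, ?_⟩
      have h1 : (1 : ℝ) ≤ (d : ℝ) ^ (1 - 1 / (q : ℝ)) := by
        apply Real.one_le_rpow hd1r
        linarith
      have h2 : ((d + 1 : ℕ) : ℝ) ≤ d0 + 1 := by
        push_cast
        have : (d : ℝ) ≤ d0 := by exact_mod_cast hsmall.le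
        linarith
      have h3 : (0 : ℝ) ≤ (d0 : ℝ) + 1 := by positivity
      nlinarith
    push Not at hsmall
    obtain ⟨N, hN⟩ : ∃ N : ℕ, N = ⌈32 / η ^ 2 * Real.log (1 + d)⌉₊ + 4 := ⟨_, rfl⟩
    have hbig := hd0 d hsmall N hN
    have hN4 : 4 ≤ N := by omega
    have hN4r : (4 : ℝ) ≤ N := by exact_mod_cast hN4
    have hlog0 : 0 ≤ Real.log (1 + d) := Real.log_nonneg (by linarith)
    have hNlog : 32 / η ^ 2 * Real.log (1 + d) ≤ N := by
      rw [hN]
      push_cast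
      have := Nat.le_ceil (32 / η ^ 2 * Real.log (1 + d))
      linarith
    have hexp : ∀ j : ℕ, (1 + d : ℝ) ^ j = Real.exp (j * Real.log (1 + d)) := by
      intro j
      rw [Real.exp_nat_mul, Real.exp_log (by linarith)]
    have hη2 : 0 < η ^ 2 := by positivity
    have hη21 : η ^ 2 ≤ 1 := by nlinarith
    -- first condition
    have hl1 : 4 * Real.exp (-(η ^ 2 / 4 * N)) * (1 + d : ℝ) ^ 6 ≤ 1 := by
      have h1 : 4 * (1 + d : ℝ) ^ 6 ≤ (1 + d : ℝ) ^ 8 := by
        have h2 : (4 : ℝ) ≤ (1 + d) ^ 2 := by nlinarith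
        have h3 := mul_le_mul_of_nonneg_right h2 (show 0 ≤ (1 + d : ℝ) ^ 6 by positivity)
        refine h3.trans (le_of_eq ?_)
        ring
      have h2 : (1 + d : ℝ) ^ 8 ≤ Real.exp (η ^ 2 / 4 * N) := by
        rw [hexp]
        apply Real.exp_le_exp.2
        have h3 := mul_le_mul_of_nonneg_left hNlog (show 0 ≤ η ^ 2 / 4 by positivity)
        refine le_trans (le_of_eq ?_) h3
        field_simp
        ring
      have h3 : Real.exp (-(η ^ 2 / 4 * N)) * Real.exp (η ^ 2 / 4 * N) = 1 := by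
        rw [← Real.exp_add]
        simp
      have h4 := mul_le_mul_of_nonneg_left (h1.trans h2) (Real.exp_pos (-(η ^ 2 / 4 * N))).le
      rw [h3] at h4
      linarith
    obtain ⟨t, ht⟩ : ∃ t : ℕ, t = Nat.clog 2 (3 * N) := ⟨_, rfl⟩
    have ht1 : 3 * N ≤ 2 ^ t := by rw [ht]; exact Nat.le_pow_clog (by norm_num) _
    have ht2 : 2 ^ t ≤ 6 * N := by
      have h1 : 1 < 3 * N := by omega
      have h2 := Nat.pow_pred_clog_lt_self (b := 2) (by norm_num) h1
      rw [← ht] at h2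
      have h3 : 1 ≤ t := by
        by_contra hcon
        have h4 : t = 0 := by omega
        rw [h4] at ht1
        omega
      have h4 : 2 ^ t = 2 * 2 ^ (t - 1) := by
        rw [← pow_succ']
        congr 1
        omega
      rw [h4]
      have h5 : 2 ^ (t - 1) < 3 * N := h2
      omega
    have ht1r : (3 * N : ℝ) ≤ 2 ^ t := by exact_mod_cast ht1
    have ht2r : (2 : ℝ) ^ t ≤ 6 * N := by exact_mod_cast ht2
    have hst := hsr V G d N hfree hemp hd hd1 hl1 t
    obtain ⟨R, hR⟩ : ∃ R : ℕ, R = L ^ t * N := ⟨_, rfl⟩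
    have hRr : (R : ℝ) = L ^ t * N := by rw [hR]; push_cast; ring
    rw [← hRr] at hst
    obtain ⟨smin, hsmin⟩ : ∃ smin : ℝ, smin = d * ((1 / 2) ^ q) ^ t := ⟨_, rfl⟩
    rw [← hsmin] at hst
    have hLt : 1 ≤ L ^ t := Nat.one_le_pow _ _ hL
    have hRN1 : N ≤ R := by rw [hR]; exact Nat.le_mul_of_pos_left _ hLt
    have hR4 : 4 ≤ R := hN4.trans hRN1
    have hR0 : (0 : ℝ) < R := by
      have : (4 : ℝ) ≤ R := by exact_mod_cast hR4
      linarith
    have hRN : (R : ℝ) ≤ (2 ^ q) ^ t * N := by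
      rw [hRr]
      apply mul_le_mul_of_nonneg_right _ (Nat.cast_nonneg _)
      exact pow_le_pow_left₀ (Nat.cast_nonneg _) hLq t
    have hNR : (N : ℝ) * R ≤ smin := by
      have h1 : (((2 : ℝ) ^ q) ^ t) = (2 ^ t) ^ q := by rw [← pow_mul, ← pow_mul, mul_comm]
      have h2 : (((2 : ℝ) ^ q) ^ t) ≤ (6 * N) ^ q := by
        rw [h1]
        exact pow_le_pow_left₀ (by positivity) ht2r q
      have h3 : (((1 / 2 : ℝ)) ^ q) ^ t * ((2 ^ q) ^ t) = 1 := by
        rw [← mul_pow, ← mul_pow]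
        norm_num
      have h4 : (N : ℝ) * R * ((2 ^ q) ^ t) ≤ d := by
        have h5 : (N : ℝ) * R ≤ N * ((6 * N) ^ q * N) := by
          apply mul_le_mul_of_nonneg_left _ (Nat.cast_nonneg _)
          exact hRN.trans (mul_le_mul_of_nonneg_right h2 (Nat.cast_nonneg _))
        have h6 := mul_le_mul h5 h2 (by positivity) (by positivity)
        refine (h6.trans (le_of_eq ?_)).trans hbig
        rw [two_mul q, pow_add]
        ring
      rw [hsmin]
      have h5 : 0 < (((1 / 2 : ℝ)) ^ q) ^ t := by positivity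
      calc (N : ℝ) * R = (N * R * ((2 ^ q) ^ t)) * (((1 / 2 : ℝ)) ^ q) ^ t := by
            rw [mul_assoc, mul_comm ((2 ^ q : ℝ) ^ t), h3, mul_one]
        _ ≤ d * (((1 / 2 : ℝ)) ^ q) ^ t := mul_le_mul_of_nonneg_right h4 h5.le
    have hsR : (R : ℝ) ≤ smin := by
      refine le_trans ?_ hNR
      nlinarith
    have hsd : smin ≤ d := by
      rw [hsmin]
      have h5 : (((1 / 2 : ℝ)) ^ q) ^ t ≤ 1 := by
        apply pow_le_one₀ (by positivity)
        exact pow_le_one₀ (by norm_num) (by norm_num)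
      nlinarith
    refine recursion hT hq (by positivity) hd1 (fun d' h1 h2 => ih d' h2 h1) V G hfree hemp hd
      hst hR4 hsR ?_ (by omega : 1 ≤ N) hRN ?_
    · -- second condition
      have h1 : Real.exp (-(smin / R)) ≤ Real.exp (-(N : ℝ)) := by
        apply Real.exp_le_exp.2
        have : (N : ℝ) ≤ smin / R := by
          rw [le_div_iff₀ hR0]
          exact hNR
        linarith
      have h2 : (R : ℝ) ≤ 1 + d := by linarith
      have h3 : 4 * (1 + d : ℝ) * (1 + d) ^ 2 ≤ Real.exp N := by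
        have h4 : 4 * (1 + d : ℝ) * (1 + d) ^ 2 ≤ (1 + d : ℝ) ^ 5 := by
          have h5 : (4 : ℝ) ≤ (1 + d) ^ 2 := by nlinarith
          have h6 := mul_le_mul_of_nonneg_right h5 (show 0 ≤ (1 + d : ℝ) ^ 3 by positivity)
          refine le_trans (le_of_eq ?_) (h6.trans (le_of_eq ?_))
          · ring
          · ring
        refine h4.trans ?_
        rw [hexp]
        apply Real.exp_le_exp.2
        refine le_trans ?_ hNlog
        apply mul_le_mul_of_nonneg_right _ hlog0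
        rw [le_div_iff₀ hη2]
        push_cast
        linarith
      have h4 : 4 * (R * Real.exp (-(smin / R))) * (1 + d : ℝ) ^ 2 ≤
          4 * ((1 + d) * Real.exp (-(N : ℝ))) * (1 + d : ℝ) ^ 2 := by
        apply mul_le_mul_of_nonneg_right _ (by positivity)
        apply mul_le_mul_of_nonneg_left _ (by norm_num)
        exact mul_le_mul h2 h1 (Real.exp_pos _).le (by positivity)
      refine h4.trans ?_
      have h5 : Real.exp (-(N : ℝ)) * Real.exp N = 1 := by
        rw [← Real.exp_add]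
        simp
      have h6 := mul_le_mul_of_nonneg_left h3 (Real.exp_pos (-(N : ℝ))).le
      rw [h5] at h6
      linarith
    · -- the cost
      have hN0 : (0 : ℝ) < N := by linarith
      have hL0 : (0 : ℝ) < L := by exact_mod_cast hL
      have hX : 0 ≤ (d : ℝ) ^ (1 - 1 / (q : ℝ)) := by positivity
      rw [hRr]
      obtain ⟨X, hXd⟩ : ∃ X : ℝ, X = (d : ℝ) ^ (1 - 1 / (q : ℝ)) := ⟨_, rfl⟩
      rw [← hXd] at hX ⊢
      have h1 : 3 * 2 ^ t * (N : ℝ) / ((L : ℝ) ^ t * N) * ((L / 8 : ℝ) ^ t * (N * X)) =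
          (3 * N / 4 ^ t) * X := by
        have h2 : (L / 8 : ℝ) ^ t = L ^ t / (2 ^ t * 4 ^ t) := by
          rw [div_pow, ← mul_pow]
          norm_num
        rw [h2]
        field_simp
      rw [h1]
      have h2 : 3 * (N : ℝ) / 4 ^ t ≤ 1 := by
        rw [div_le_one (by positivity)]
        refine ht1r.trans ?_
        exact pow_le_pow_left₀ (by norm_num) (by norm_num) t
      nlinarith

end Pool.Agent.J4.H79.GS
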