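import Pool.Agent.R50.MC.Main
import Pool.Agent.Y394.AT.Tree

set_option autoImplicit false

/-!
# Peeling a graph whose adjacency form is bounded below on balls of radius two
-/

namespace Pool.Agent.J4.H79.GS

open Finset Pool.Agent.Y394.AT Pool.Agent.R50.MC

open Classical in
/-- repeatedly keep the vertices with at least `b` neighbours among those kept so far -/
noncomputable def peel {V : Type} [Fintype V] (H : SimpleGraph V) (W : Finset V) (b : ℝ) :
    ℕ → Finset V
  | 0 => W
  | j + 1 => (peel H W b j).filter (fun v => b ≤ ((nb H v ∩ peel H W b j).card : ℝ))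

open Classical in
/-- the ball of radius two around `z` in the graph induced on `W` -/
noncomputable def ball2 {V : Type} [Fintype V] (H : SimpleGraph V) (W : Finset V) (z : V) :
    Finset V :=
  W.filter (fun w => w = z ∨ H.Adj z w ∨ ∃ x ∈ W, H.Adj z x ∧ H.Adj x w)

variable {V : Type} [Fintype V] {H : SimpleGraph V}

theorem peel_sub (W : Finset V) (b : ℝ) (j : ℕ) : peel H W b (j + 1) ⊆ peel H W b j := by
  classical
  intro v hv
  unfold peel at hv
  exact (Finset.mem_filter.1 hv).1

theorem peel_anti (W : Finset V) (b : ℝ) {i j : ℕ} (h : i ≤ j) : peel H W b j ⊆ peel H W b i := by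
  induction j, h using Nat.le_induction with
  | base => exact Finset.Subset.refl _
  | succ j _ ih => exact (peel_sub W b j).trans ih

theorem peel_sub0 (W : Finset V) (b : ℝ) (j : ℕ) : peel H W b j ⊆ W :=
  peel_anti W b (Nat.zero_le j)

open Classical in
theorem peel_deg (W : Finset V) (b : ℝ) (j : ℕ) {v : V} (hv : v ∈ peel H W b (j + 1)) :
    b ≤ ((nb H v ∩ peel H W b j).card : ℝ) := by
  have h := hv
  unfold peel at h
  exact (Finset.mem_filter.1 h).2

open Classical in
/-- removing a set of vertices removes few edges -/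
theorem sum_split (A B : Finset V) (hBA : B ⊆ A) :
    ∑ v ∈ A, ((nb H v ∩ A).card : ℝ) ≤ ∑ v ∈ B, ((nb H v ∩ B).card : ℝ) +
      2 * ∑ v ∈ A \ B, ((nb H v ∩ A).card : ℝ) := by
  have key : ∀ C : Finset V, C ⊆ A → ∑ v ∈ A, ((nb H v ∩ A).card : ℝ) ≤
      ∑ v ∈ A \ C, ((nb H v ∩ (A \ C)).card : ℝ) + 2 * ∑ v ∈ C, ((nb H v ∩ A).card : ℝ) := by
    intro C
    induction C using Finset.induction_on with
    | empty => intro _; simp
    | insert c C hc ih =>
      intro hsub
      have h1 := ih ((Finset.subset_insert c C).trans hsub)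
      have hcA : c ∈ A := hsub (Finset.mem_insert_self c C)
      have hcC : c ∈ A \ C := Finset.mem_sdiff.2 ⟨hcA, hc⟩
      have h2 := sum_erase_nb (G := H) (A \ C) hcC
      have h3 : (A \ C).erase c = A \ insert c C := by
        ext x
        simp only [Finset.mem_erase, Finset.mem_sdiff, Finset.mem_insert]
        tauto
      rw [h3] at h2
      rw [Finset.sum_insert hc]
      have h4 : ((nb H c ∩ (A \ C)).card : ℝ) ≤ ((nb H c ∩ A).card : ℝ) := by
        exact_mod_cast Finset.card_le_card
          (Finset.inter_subset_inter_left Finset.sdiff_subset)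
      linarith
  have h := key (A \ B) Finset.sdiff_subset
  rw [Finset.sdiff_sdiff_eq_self hBA] at h
  exact h

open Classical in
/-- if peeling ends in the empty set, there are few edges -/
theorem sum_of_peel (W : Finset V) (b : ℝ) (n : ℕ) (hn : peel H W b n = ∅) :
    ∑ v ∈ W, ((nb H v ∩ W).card : ℝ) ≤ 2 * b * W.card := by
  have key : ∀ j : ℕ, ∑ v ∈ W, ((nb H v ∩ W).card : ℝ) ≤
      ∑ v ∈ peel H W b j, ((nb H v ∩ peel H W b j).card : ℝ) +
        2 * b * ((W \ peel H W b j).card : ℝ) := by
    intro j
    induction j with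
    | zero =>
      have : peel H W b 0 = W := by unfold peel; rfl
      rw [this]
      simp
    | succ j ih =>
      have h1 := sum_split (H := H) _ _ (peel_sub (H := H) W b j)
      have h2 : ∑ v ∈ peel H W b j \ peel H W b (j + 1), ((nb H v ∩ peel H W b j).card : ℝ) ≤
          ∑ v ∈ peel H W b j \ peel H W b (j + 1), b := by
        apply Finset.sum_le_sum
        intro v hv
        rw [Finset.mem_sdiff] at hv
        by_contra hcon
        push Not at hcon
        apply hv.2
        have h3 : peel H W b (j + 1) = (peel H W b j).filter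
            (fun v => b ≤ ((nb H v ∩ peel H W b j).card : ℝ)) := by
          rw [peel]
        rw [h3]
        exact Finset.mem_filter.2 ⟨hv.1, hcon.le⟩
      rw [Finset.sum_const, nsmul_eq_mul] at h2
      have h4 : ((W \ peel H W b (j + 1)).card : ℝ) = ((W \ peel H W b j).card : ℝ) +
          ((peel H W b j \ peel H W b (j + 1)).card : ℝ) := by
        rw [← Nat.cast_add, ← Finset.card_union_of_disjoint]
        · congr 2
          ext x
          simp only [Finset.mem_sdiff, Finset.mem_union]
          have h5 := @peel_sub V _ H W b j x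
          have h6 := @peel_sub0 V _ H W b j x
          tauto
        · rw [Finset.disjoint_left]
          intro x hx hx'
          exact (Finset.mem_sdiff.1 hx).2 (Finset.mem_sdiff.1 hx').1
      rw [h4]
      have h5 : 2 * b * (((W \ peel H W b j).card : ℝ) +
          ((peel H W b j \ peel H W b (j + 1)).card : ℝ)) =
          2 * b * ((W \ peel H W b j).card : ℝ) +
            2 * (((peel H W b j \ peel H W b (j + 1)).card : ℝ) * b) := by ring
      rw [h5]
      linarith
  have h := key n
  rw [hn] at h
  simpa using h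

theorem ball2_sub (W : Finset V) (z : V) : ball2 H W z ⊆ W := by
  classical
  unfold ball2
  exact Finset.filter_subset _ _

open Classical in
theorem card_sub (B N : Finset V) (hNB : N ⊆ B) (inst : DecidableEq {x // x ∈ B})
    (v : {x // x ∈ B}) :
    (nb (ind H B) v ∩ N.subtype (fun x => x ∈ B)).card = (nb H v.1 ∩ N).card := by
  rw [← Finset.card_map ⟨Subtype.val, Subtype.val_injective⟩]
  congr 1
  ext w
  rw [Finset.mem_map]
  constructor
  · rintro ⟨x, hx, rfl⟩
    rw [Finset.mem_inter, Finset.mem_subtype, mem_nb] at hx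
    rw [Finset.mem_inter, mem_nb]
    exact ⟨hx.1, hx.2⟩
  · intro hw
    rw [Finset.mem_inter, mem_nb] at hw
    refine ⟨⟨w, hNB hw.2⟩, ?_, rfl⟩
    rw [Finset.mem_inter, Finset.mem_subtype, mem_nb]
    exact ⟨hw.1, hw.2⟩

open Classical in
theorem sum_sub (B N : Finset V) (hNB : N ⊆ B) (F : V → ℝ) :
    ∑ v ∈ N.subtype (fun x => x ∈ B), F v.1 = ∑ x ∈ N, F x := by
  symm
  refine Finset.sum_bij' (fun x hx => (⟨x, hNB hx⟩ : {x // x ∈ B})) (fun x _ => x.1)
    ?_ ?_ ?_ ?_ ?_
  · intro x hx
    exact Finset.mem_subtype.2 hx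
  · intro x hx
    exact Finset.mem_subtype.1 hx
  · intro x hx
    rfl
  · intro x hx
    rfl
  · intro x hx
    rfl

omit [Fintype V] in
open Classical in
theorem card_sub0 (B N : Finset V) (hNB : N ⊆ B) :
    (N.subtype (fun x => x ∈ B)).card = N.card := by
  rw [← Finset.card_map ⟨Subtype.val, Subtype.val_injective⟩]
  congr 1
  ext w
  rw [Finset.mem_map]
  constructor
  · rintro ⟨x, hx, rfl⟩
    rw [Finset.mem_subtype] at hx
    exact hx
  · intro hw
    exact ⟨⟨w, hNB hw⟩, Finset.mem_subtype.2 hw, rfl⟩

open Classical in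
/-- **Structure lemma.** -/
theorem peel_empty (m : ℕ) (T : SimpleGraph (Fin (m + 1))) (hT : T.IsTree) (k : ℕ) :
    ∀ γ : ℝ, 0 < γ → ∃ ε : ℝ, 0 < ε ∧ ∀ (V : Type) [Fintype V] (H : SimpleGraph V)
      (W : Finset V) (D : ℝ), 0 < D → (∀ v ∈ W, ((nb H v ∩ W).card : ℝ) ≤ D) →
      H.CliqueFreeOn (W : Set V) k → IsEmpty (T ↪g H) →
      (∀ z ∈ W, ∀ f : V → ℝ, (∀ v, v ∉ ball2 H W z → f v = 0) → -(ε * D) * N2 f ≤ q H f) →
      peel H W (γ * D) m = ∅ := by
  induction k with
  | zero =>
    intro γ _
    refine ⟨1, one_pos, ?_⟩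
    intro V _ H W D _ _ hfree _ _
    exfalso
    apply hfree (t := ∅) (by simp)
    rw [SimpleGraph.isNClique_iff]
    simp
  | succ k ih =>
    intro γ hγ
    obtain ⟨δ, hδd⟩ : ∃ δ : ℝ, δ = γ / (4 * (m + 1)) := ⟨_, rfl⟩
    have hδ : 0 < δ := by rw [hδd]; positivity
    obtain ⟨γ', hγd⟩ : ∃ γ' : ℝ, γ' = δ ^ 3 / 16 := ⟨_, rfl⟩
    have hγ' : 0 < γ' := by rw [hγd]; positivity
    obtain ⟨ε1, hε1, hIH⟩ := ih γ' hγ'
    obtain ⟨ε, hεd⟩ : ∃ ε : ℝ, ε = min (min ε1 γ') 1 := ⟨_, rfl⟩
    have hε : 0 < ε := by rw [hεd]; exact lt_min (lt_min hε1 hγ') one_pos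
    have hεε1 : ε ≤ ε1 := by rw [hεd]; exact (min_le_left _ _).trans (min_le_left _ _)
    have hεγ : ε ≤ γ' := by rw [hεd]; exact (min_le_left _ _).trans (min_le_right _ _)
    have hε1' : ε ≤ 1 := by rw [hεd]; exact min_le_right _ _
    refine ⟨ε, hε, ?_⟩
    intro V _ H W D hD hdeg hfree hemp hq
    by_contra hcon
    -- neighbourhoods are sparse
    have hsparse : ∀ y ∈ W, ∑ x ∈ nb H y ∩ W, ((nb H x ∩ (nb H y ∩ W)).card : ℝ) ≤
        2 * γ' * D * D := by
      intro y hy
      have h1 : peel H (nb H y ∩ W) (γ' * D) m = ∅ := by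
        apply hIH V H (nb H y ∩ W) D hD
        · intro v hv
          refine le_trans ?_ (hdeg v (Finset.mem_inter.1 hv).2)
          exact_mod_cast Finset.card_le_card
            (Finset.inter_subset_inter_left Finset.inter_subset_right)
        · intro t ht htc
          have hyt : ∀ b ∈ t, H.Adj y b := by
            intro b hb
            have := ht hb
            rw [Finset.mem_coe, Finset.mem_inter, mem_nb] at this
            exact this.1
          apply hfree (t := insert y t) _ (htc.insert hyt)
          intro b hb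
          rw [Finset.mem_coe, Finset.mem_insert] at hb
          rcases hb with rfl | hb
          · exact hy
          · have := ht hb
            rw [Finset.mem_coe, Finset.mem_inter] at this
            exact this.2
        · exact hemp
        · intro z hz f hf
          have h2 := hq y hy f (by
            intro v hv
            apply hf
            intro hv2
            apply hv
            have hv3 := ball2_sub _ _ hv2
            rw [Finset.mem_inter, mem_nb] at hv3
            unfold ball2
            rw [Finset.mem_filter]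
            exact ⟨hv3.2, Or.inr (Or.inl hv3.1)⟩)
          refine le_trans ?_ h2
          have h5 := N2_nonneg f
          have h6 : ε * D ≤ ε1 * D := mul_le_mul_of_nonneg_right hεε1 hD.le
          nlinarith
      have h2 := sum_of_peel (H := H) _ _ m h1
      refine h2.trans ?_
      have h3 := hdeg y hy
      have h4 := mul_le_mul_of_nonneg_left h3 (show 0 ≤ 2 * (γ' * D) by positivity)
      linarith
    -- few vertices with large codegree
    have hcod : ∀ y ∈ W, ((W.filter (fun w => δ * D ≤ ((nb H w ∩ (nb H y ∩ W)).card : ℝ))).card : ℝ)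
        ≤ δ * D := by
      intro y hy
      obtain ⟨B, hB⟩ : ∃ B : Finset V, B = ball2 H W y := ⟨_, rfl⟩
      have hBW : B ⊆ W := by rw [hB]; exact ball2_sub _ _
      have hNB : nb H y ∩ W ⊆ B := by
        intro x hx
        rw [hB]
        unfold ball2
        rw [Finset.mem_inter, mem_nb] at hx
        rw [Finset.mem_filter]
        exact ⟨hx.2, Or.inr (Or.inl hx.1)⟩
      have h1 := spec (G := ind H B) (d := D) (e := ε * D) hD (by positivity)
        (by
          intro v
          rw [nb_ind]
          refine le_trans ?_ (hdeg v.1 (hBW v.2))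
          exact_mod_cast Finset.card_le_card (Finset.inter_subset_inter_left hBW))
        (by
          intro f
          have h4 := hq y hy (ext0 B f) (by
            intro v hv
            rw [← hB] at hv
            exact ext0_not B f hv)
          rw [N2_ext, q_ext] at h4
          exact h4)
        ((nb H y ∩ W).subtype (fun x => x ∈ B))
      simp only [card_sub B (nb H y ∩ W) hNB] at h1
      rw [sum_sub B (nb H y ∩ W) hNB (fun x => ((nb H x ∩ (nb H y ∩ W)).card : ℝ)),
        card_sub0 B (nb H y ∩ W) hNB,
        Finset.sum_coe_sort B (fun w => ((nb H w ∩ (nb H y ∩ W)).card : ℝ) ^ 2)] at h1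
      obtain ⟨X, hX⟩ : ∃ X : Finset V, X = W.filter
        (fun w => δ * D ≤ ((nb H w ∩ (nb H y ∩ W)).card : ℝ)) := ⟨_, rfl⟩
      rw [← hX]
      have hXB : X ⊆ B := by
        intro w hw
        rw [hX, Finset.mem_filter] at hw
        have h3 : 0 < ((nb H w ∩ (nb H y ∩ W)).card : ℝ) :=
          lt_of_lt_of_le (by positivity) hw.2
        have h4 : 0 < (nb H w ∩ (nb H y ∩ W)).card := by exact_mod_cast h3
        obtain ⟨x, hx⟩ := Finset.card_pos.1 h4
        rw [Finset.mem_inter, Finset.mem_inter, mem_nb, mem_nb] at hx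
        rw [hB]
        unfold ball2
        rw [Finset.mem_filter]
        exact ⟨hw.1, Or.inr (Or.inr ⟨x, hx.2.2, hx.2.1, hx.1.symm⟩)⟩
      have h3 : (X.card : ℝ) * (δ * D) ^ 2 ≤
          ∑ w ∈ B, ((nb H w ∩ (nb H y ∩ W)).card : ℝ) ^ 2 := by
        rw [← nsmul_eq_mul, ← Finset.sum_const]
        refine le_trans ?_ (Finset.sum_le_sum_of_subset_of_nonneg hXB (fun _ _ _ => sq_nonneg _))
        apply Finset.sum_le_sum
        intro w hw
        rw [hX, Finset.mem_filter] at hw
        exact pow_le_pow_left₀ (by positivity) hw.2 2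
      have h4 := hsparse y hy
      have h5 := hdeg y hy
      have h6 : ε * D * ((nb H y ∩ W).card : ℝ) ≤ γ' * D * D := by
        have e1 : ε * D ≤ γ' * D := mul_le_mul_of_nonneg_right hεγ hD.le
        exact mul_le_mul e1 h5 (Nat.cast_nonneg _) (by positivity)
      have h7 : (D + ε * D) ≤ 2 * D := by
        have : ε * D ≤ 1 * D := mul_le_mul_of_nonneg_right hε1' hD.le
        linarith
      have h8 : (D + ε * D) * (∑ x ∈ nb H y ∩ W, ((nb H x ∩ (nb H y ∩ W)).card : ℝ) +
          ε * D * ((nb H y ∩ W).card : ℝ)) ≤ 2 * D * (3 * γ' * D * D) := by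
        apply mul_le_mul h7 _ _ (by positivity)
        · linarith
        · positivity
      have h9 : (X.card : ℝ) * (δ * D) ^ 2 ≤ δ * D * (δ * D) ^ 2 := by
        refine (h3.trans (h1.trans h8)).trans ?_
        rw [hγd]
        have : 0 ≤ δ ^ 3 * D ^ 3 := by positivity
        nlinarith
      exact le_of_mul_le_mul_right h9 (by positivity)
    -- embedding
    obtain ⟨v0, hv0⟩ := Finset.nonempty_iff_ne_empty.2 hcon
    have hδm : 4 * ((m : ℝ) + 1) * δ = γ := by
      rw [hδd]
      field_simp
    obtain ⟨f, hf1, _, hf3⟩ := tree_embed H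
      (fun n S => (∀ s ∈ S, s ∈ peel H W (γ * D) (m + 1 - n)) ∧
        ∀ s ∈ S, ∀ s' ∈ S, s ≠ s' → ((nb H s ∩ (nb H s' ∩ W)).card : ℝ) < δ * D) (m + 1)
      ⟨v0, by
        constructor
        · intro s hs
          rw [Finset.mem_singleton] at hs
          rw [hs]
          simpa using hv0
        · intro s hs s' hs' hss
          rw [Finset.mem_singleton] at hs hs'
          exact absurd (hs.trans hs'.symm) hss⟩
      (by
        intro n hn1 hnm S hS hInv p hp
        obtain ⟨hI1, hI2⟩ := hInv
        have hpS := hI1 p hp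
        have e1 : m + 1 - n = (m + 1 - (n + 1)) + 1 := by omega
        rw [e1] at hpS
        have hpd := peel_deg (H := H) _ _ _ hpS
        obtain ⟨P, hP⟩ : ∃ P : Finset V, P = peel H W (γ * D) (m + 1 - (n + 1)) := ⟨_, rfl⟩
        rw [← hP] at hpd
        have hPW : P ⊆ W := by rw [hP]; exact peel_sub0 _ _ _
        have hSP : ∀ s ∈ S, s ∈ P := by
          intro s hs
          rw [hP]
          have h1 := hI1 s hs
          rw [e1] at h1
          exact peel_sub _ _ _ h1
        -- excluded sets
        obtain ⟨E1, hE1⟩ : ∃ E1 : Finset V, E1 = (S.erase p).biUnion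
          (fun s => nb H s ∩ (nb H p ∩ W)) := ⟨_, rfl⟩
        obtain ⟨E2, hE2⟩ : ∃ E2 : Finset V, E2 = S.biUnion (fun s => W.filter
          (fun w => δ * D ≤ ((nb H w ∩ (nb H s ∩ W)).card : ℝ))) := ⟨_, rfl⟩
        have hc1 : (E1.card : ℝ) ≤ ((m : ℝ) + 1) * (δ * D) := by
          have h1 : (E1.card : ℝ) ≤ ∑ s ∈ S.erase p, ((nb H s ∩ (nb H p ∩ W)).card : ℝ) := by
            rw [hE1]
            exact_mod_cast Finset.card_biUnion_le
          have h2 : ∑ s ∈ S.erase p, ((nb H s ∩ (nb H p ∩ W)).card : ℝ) ≤
              ∑ s ∈ S.erase p, δ * D := by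
            apply Finset.sum_le_sum
            intro s hs
            rw [Finset.mem_erase] at hs
            exact (hI2 s hs.2 p hp hs.1).le
          rw [Finset.sum_const, nsmul_eq_mul] at h2
          have h3 : ((S.erase p).card : ℝ) ≤ (m : ℝ) + 1 := by
            have : (S.erase p).card ≤ m + 1 := by
              have := Finset.card_erase_le (s := S) (a := p)
              omega
            exact_mod_cast this
          have h4 := mul_le_mul_of_nonneg_right h3 (show 0 ≤ δ * D by positivity)
          linarith
        have hc2 : (E2.card : ℝ) ≤ ((m : ℝ) + 1) * (δ * D) := by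
          have h1 : (E2.card : ℝ) ≤ ∑ s ∈ S, ((W.filter
              (fun w => δ * D ≤ ((nb H w ∩ (nb H s ∩ W)).card : ℝ))).card : ℝ) := by
            rw [hE2]
            exact_mod_cast Finset.card_biUnion_le
          have h2 : ∑ s ∈ S, ((W.filter
              (fun w => δ * D ≤ ((nb H w ∩ (nb H s ∩ W)).card : ℝ))).card : ℝ) ≤
              ∑ s ∈ S, δ * D := by
            apply Finset.sum_le_sum
            intro s hs
            exact hcod s (hPW (hSP s hs))
          rw [Finset.sum_const, nsmul_eq_mul] at h2
          have h3 : (S.card : ℝ) ≤ (m : ℝ) + 1 := by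
            have : S.card ≤ m + 1 := by omega
            exact_mod_cast this
          have h4 := mul_le_mul_of_nonneg_right h3 (show 0 ≤ δ * D by positivity)
          linarith
        have hex : ∃ w ∈ nb H p ∩ P, w ∉ E1 ∪ E2 := by
          by_contra hno
          push Not at hno
          have h1 : nb H p ∩ P ⊆ E1 ∪ E2 := fun w hw => hno w hw
          have h2 : ((nb H p ∩ P).card : ℝ) ≤ (E1.card : ℝ) + E2.card := by
            exact_mod_cast (Finset.card_le_card h1).trans (Finset.card_union_le _ _)
          have h3 : γ * D = 4 * ((m : ℝ) + 1) * (δ * D) := by rw [← hδm]; ring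
          have h4 : 0 < ((m : ℝ) + 1) * (δ * D) := by positivity
          nlinarith
        obtain ⟨w, hw, hwE⟩ := hex
        rw [Finset.mem_union, not_or] at hwE
        rw [Finset.mem_inter, mem_nb] at hw
        have hwW : w ∈ W := hPW hw.2
        have hlow : ∀ s ∈ S, ((nb H w ∩ (nb H s ∩ W)).card : ℝ) < δ * D := by
          intro s hs
          by_contra hc
          push Not at hc
          apply hwE.2
          rw [hE2, Finset.mem_biUnion]
          exact ⟨s, hs, Finset.mem_filter.2 ⟨hwW, hc⟩⟩
        have hwS : w ∉ S := by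
          intro hwS
          have h1 := hlow w hwS
          have h2 := hI1 w hwS
          rw [e1] at h2
          have h3 := peel_deg (H := H) _ _ _ h2
          rw [← hP] at h3
          have h4 : ((nb H w ∩ P).card : ℝ) ≤ ((nb H w ∩ (nb H w ∩ W)).card : ℝ) := by
            have : nb H w ∩ P ⊆ nb H w ∩ (nb H w ∩ W) := by
              intro x hx
              rw [Finset.mem_inter] at hx
              rw [Finset.mem_inter, Finset.mem_inter]
              exact ⟨hx.1, hx.1, hPW hx.2⟩
            exact_mod_cast Finset.card_le_card this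
          have h5 : γ * D = 4 * ((m : ℝ) + 1) * (δ * D) := by rw [← hδm]; ring
          have h6 : 0 < δ * D := by positivity
          have h7 : (0 : ℝ) ≤ m := Nat.cast_nonneg _
          nlinarith
        refine ⟨w, hwS, hw.1, ?_, ?_, ?_⟩
        · intro s hs hsp hadj
          apply hwE.1
          rw [hE1, Finset.mem_biUnion]
          refine ⟨s, Finset.mem_erase.2 ⟨hsp, hs⟩, ?_⟩
          rw [Finset.mem_inter, Finset.mem_inter, mem_nb, mem_nb]
          exact ⟨hadj, hw.1, hwW⟩
        · intro s hs
          rw [Finset.mem_insert] at hs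
          rw [← hP]
          rcases hs with rfl | hs
          · exact hw.2
          · exact hSP s hs
        · intro s hs s' hs' hss
          rw [Finset.mem_insert] at hs hs'
          rcases hs with rfl | hs
          · rcases hs' with rfl | hs'
            · exact absurd rfl hss
            · exact hlow s' hs'
          · rcases hs' with rfl | hs'
            · have h1 := hlow s hs
              refine lt_of_le_of_lt ?_ h1
              have : nb H s ∩ (nb H s' ∩ W) ⊆ nb H s' ∩ (nb H s ∩ W) := by
                intro x hx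
                rw [Finset.mem_inter, Finset.mem_inter] at hx
                rw [Finset.mem_inter, Finset.mem_inter]
                exact ⟨hx.2.1, hx.1, hx.2.2⟩
              exact_mod_cast Finset.card_le_card this
            · exact hI2 s hs s' hs' hss)
      m (by omega) (Fin (m + 1)) T hT (by simp)
    exact hemp.false ⟨⟨f, hf1⟩, fun {a b} => (hf3 a b).symm⟩

end Pool.Agent.J4.H79.GS
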