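import Pool.Agent.J4.H79.GS.Cover

set_option autoImplicit false

/-!
# Averages over finite products, random signs and biased coins
-/

namespace Pool.Agent.J4.H79.GS

open Finset Pool.Agent.Y394.AT Pool.Agent.R50.MC

/-- the average of a function on a finite set -/
noncomputable def av {Ω : Type} [Fintype Ω] (g : Ω → ℝ) : ℝ := (∑ ω, g ω) / Fintype.card Ω

section basic

variable {Ω : Type} [Fintype Ω]

theorem av_add (g h : Ω → ℝ) : av (fun ω => g ω + h ω) = av g + av h := by
  unfold av
  rw [Finset.sum_add_distrib, add_div]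

theorem av_mul (c : ℝ) (g : Ω → ℝ) : av (fun ω => c * g ω) = c * av g := by
  unfold av
  rw [← Finset.mul_sum, mul_div_assoc]

theorem av_sum {ι : Type} (s : Finset ι) (g : ι → Ω → ℝ) :
    av (fun ω => ∑ i ∈ s, g i ω) = ∑ i ∈ s, av (g i) := by
  unfold av
  rw [Finset.sum_comm, Finset.sum_div]

theorem av_const [Nonempty Ω] (c : ℝ) : av (fun _ : Ω => c) = c := by
  unfold av
  have : (Fintype.card Ω : ℝ) ≠ 0 := by
    exact_mod_cast Fintype.card_ne_zero
  rw [Finset.sum_const, Finset.card_univ, nsmul_eq_mul]
  field_simp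

theorem av_mono {g h : Ω → ℝ} (hgh : ∀ ω, g ω ≤ h ω) : av g ≤ av h := by
  unfold av
  exact div_le_div_of_nonneg_right (Finset.sum_le_sum fun ω _ => hgh ω) (Nat.cast_nonneg _)

theorem av_nonneg {g : Ω → ℝ} (hg : ∀ ω, 0 ≤ g ω) : 0 ≤ av g := by
  unfold av
  exact div_nonneg (Finset.sum_nonneg fun ω _ => hg ω) (Nat.cast_nonneg _)

end basic

section product

variable {T C : Type} [Fintype T] [DecidableEq T] [Fintype C]

/-- the swap of one coordinate -/
noncomputable def swp (t : T) : (T → C) × C ≃ (T → C) × C where
  toFun p := (Function.update p.1 t p.2, p.1 t)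
  invFun p := (Function.update p.1 t p.2, p.1 t)
  left_inv p := by
    refine Prod.ext ?_ ?_
    · simp
    · simp
  right_inv p := by
    refine Prod.ext ?_ ?_
    · simp
    · simp

theorem av_update (t : T) (g : (T → C) → ℝ) :
    av g = av (fun ω => av (fun c => g (Function.update ω t c))) := by
  rcases isEmpty_or_nonempty C with hC | hC
  · have : IsEmpty (T → C) := ⟨fun ω => hC.false (ω t)⟩
    unfold av
    simp
  have h1 : (Fintype.card C : ℝ) ≠ 0 := by exact_mod_cast Fintype.card_ne_zero
  have h2 : ∑ ω : T → C, ∑ c : C, g (Function.update ω t c) =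
      Fintype.card C * ∑ ω : T → C, g ω := by
    rw [← Finset.sum_product', Finset.univ_product_univ]
    have h3 : ∑ p : (T → C) × C, g (Function.update p.1 t p.2) =
        ∑ p : (T → C) × C, g p.1 := by
      exact Equiv.sum_comp (swp t) (fun p : (T → C) × C => g p.1)
    rw [h3, ← Finset.univ_product_univ, Finset.sum_product]
    simp only [Finset.sum_const, Finset.card_univ, nsmul_eq_mul]
    rw [Finset.mul_sum]
  unfold av
  rw [← Finset.sum_div, h2]
  field_simp

end product

section pi

variable {I T C : Type} [Fintype I] [DecidableEq I] [Fintype T] [DecidableEq T] [Fintype C]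

theorem av_pi (g : I → (T → C) → ℝ) :
    av (fun ω : I × T → C => ∏ i, g i (fun t => ω (i, t))) = ∏ i, av (g i) := by
  unfold av
  rw [Finset.prod_div_distrib]
  congr 1
  · rw [Finset.prod_univ_sum, Fintype.piFinset_univ]
    exact Equiv.sum_comp (Equiv.curry I T C) (fun x : I → T → C => ∏ i, g i (x i))
  · rw [Finset.prod_const, Finset.card_univ]
    have h1 : Fintype.card (I × T → C) = Fintype.card (I → T → C) :=
      Fintype.card_congr (Equiv.curry I T C)
    rw [h1, Fintype.card_fun (α := I)]
    push_cast
    rfl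

end pi

end Pool.Agent.J4.H79.GS
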