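import Pool.Agent.J4.H79.GS.Select

set_option autoImplicit false

/-!
# Many super-rounds and the recursion on the maximum degree
-/

namespace Pool.Agent.J4.H79.GS

open Finset Pool.Agent.Y394.AT Pool.Agent.R50.MC

theorem rpow_tau {q : ℕ} (hq : 1 ≤ q) {x : ℝ} (hx : (1 / 2 : ℝ) ^ q ≤ x) :
    x ^ (1 - 1 / (q : ℝ)) ≤ 2 * x := by
  have hx0 : 0 < x := lt_of_lt_of_le (by positivity) hx
  have hq0 : (q : ℝ) ≠ 0 := by
    have : (0 : ℝ) < q := by exact_mod_cast hq
    exact this.ne'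
  rw [Real.rpow_sub hx0, Real.rpow_one]
  have h1 : (1 / 2 : ℝ) ≤ x ^ (1 / (q : ℝ)) := by
    have h2 := Real.rpow_le_rpow (by positivity) hx (show 0 ≤ 1 / (q : ℝ) by positivity)
    rw [← Real.rpow_natCast, ← Real.rpow_mul (by norm_num), mul_one_div_cancel hq0,
      Real.rpow_one] at h2
    exact h2
  rw [div_le_iff₀ (by linarith)]
  nlinarith

theorem rpow_tau2 {q : ℕ} (hq : 1 ≤ q) (t N : ℕ) (hN : 1 ≤ N) {R : ℝ} (hR0 : 0 < R)
    (hR : R ≤ (2 ^ q) ^ t * N) : (3 / R) ^ (1 - 1 / (q : ℝ)) ≤ 3 * 2 ^ t * N / R := by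
  have hq1 : (0 : ℝ) < q := by exact_mod_cast hq
  have hq0 : (q : ℝ) ≠ 0 := hq1.ne'
  have hN1 : (1 : ℝ) ≤ N := by exact_mod_cast hN
  have hq2 : (1 : ℝ) ≤ q := by exact_mod_cast hq
  have h3R : 0 < 3 / R := by positivity
  rw [Real.rpow_sub h3R, Real.rpow_one]
  have h1 : R ^ (1 / (q : ℝ)) ≤ 2 ^ t * N := by
    have h2 := Real.rpow_le_rpow hR0.le hR (show 0 ≤ 1 / (q : ℝ) by positivity)
    rw [Real.mul_rpow (by positivity) (by positivity)] at h2
    have h3 : (((2 : ℝ) ^ q) ^ t) ^ (1 / (q : ℝ)) = 2 ^ t := by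
      rw [← pow_mul, mul_comm q t, pow_mul, ← Real.rpow_natCast ((2 : ℝ) ^ t) q,
        ← Real.rpow_mul (by positivity), mul_one_div_cancel hq0, Real.rpow_one]
    rw [h3] at h2
    refine h2.trans ?_
    apply mul_le_mul_of_nonneg_left _ (by positivity)
    calc (N : ℝ) ^ (1 / (q : ℝ)) ≤ (N : ℝ) ^ (1 : ℝ) := by
          apply Real.rpow_le_rpow_of_exponent_le hN1
          rw [div_le_one hq1]
          exact hq2
      _ = N := Real.rpow_one _
  have h2 : 1 / R ^ (1 / (q : ℝ)) ≤ (3 / R) ^ (1 / (q : ℝ)) := by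
    rw [Real.div_rpow (by norm_num) hR0.le]
    apply div_le_div_of_nonneg_right _ (by positivity)
    exact Real.one_le_rpow (by norm_num) (by positivity)
  have h4 : 0 < R ^ (1 / (q : ℝ)) := by positivity
  have h5 : 0 < (3 / R) ^ (1 / (q : ℝ)) := by positivity
  have h6 : 1 ≤ (2 ^ t * N) * (3 / R) ^ (1 / (q : ℝ)) := by
    rw [div_le_iff₀ h4] at h2
    have h7 := mul_le_mul_of_nonneg_left h1 h5.le
    linarith
  rw [div_le_iff₀ h5]
  have h7 : 3 * 2 ^ t * (N : ℝ) / R * (3 / R) ^ (1 / (q : ℝ)) =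
      (3 / R) * ((2 ^ t * N) * (3 / R) ^ (1 / (q : ℝ))) := by
    field_simp
  rw [h7]
  have := mul_le_mul_of_nonneg_left h6 h3R.le
  linarith

open Classical in
/-- a system of incomplete colourings -/
def State {V : Type} [Fintype V] (G : SimpleGraph V) (τ : ℝ) (d R W smin : ℝ) : Prop :=
  ∃ (I : Type) (_ : Fintype I) (A : I → Finset V) (c : I → V → ℕ) (n : I → ℕ) (s : I → ℝ),
    (∀ i, smin ≤ s i) ∧ (∀ i, s i ≤ d) ∧
    (∀ i v, ((nb (cell G (A i) (c i)) v).card : ℝ) ≤ s i) ∧ (∀ i v, c i v < n i) ∧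
    (∀ v, R ≤ ((univ.filter (fun i => v ∈ A i)).card : ℝ)) ∧
    ∑ i, (n i : ℝ) * s i ^ (1 - τ) ≤ W

open Classical in
/-- many super-rounds -/
theorem super_rounds (m k : ℕ) (T : SimpleGraph (Fin (m + 1))) (hT : T.IsTree) :
    ∃ (q L : ℕ) (η : ℝ), 2 ≤ q ∧ 1 ≤ L ∧ (L : ℝ) ≤ 2 ^ q ∧ 0 < η ∧ η ≤ 1 ∧
      ∀ (V : Type) [Fintype V] (G : SimpleGraph V) (d N : ℕ),
        G.CliqueFree k → IsEmpty (T ↪g G) → (∀ v, (nb G v).card ≤ d) → 1 ≤ d →
        4 * Real.exp (-(η ^ 2 / 4 * N)) * (1 + d : ℝ) ^ 6 ≤ 1 →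
        ∀ t : ℕ, State G (1 / q) d (L ^ t * N) ((L / 8) ^ t * (N * (d : ℝ) ^ (1 - 1 / (q : ℝ))))
          (d * ((1 / 2) ^ q) ^ t) := by
  obtain ⟨θ, hθ⟩ : ∃ θ : ℝ, θ = 1 / (32 * (m + 1)) := ⟨_, rfl⟩
  have hθ0 : 0 < θ := by rw [hθ]; positivity
  have hθ1 : θ ≤ 1 := by
    rw [hθ, div_le_one (by positivity)]
    have : (0 : ℝ) ≤ m := Nat.cast_nonneg _
    linarith
  obtain ⟨L, η, hL, hη0, hη1, hsup⟩ := super m k T hT (θ / 8) (by positivity)
  obtain ⟨q, hq⟩ : ∃ q : ℕ, q = 2 * L + (32 * (m + 1)) := ⟨_, rfl⟩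
  have hqθ : ∀ j, j < 2 * L → (1 / 2 : ℝ) ^ q ≤ θ / 2 ^ j := by
    intro j hj
    have h1 : (1 / 2 : ℝ) ^ (32 * (m + 1)) ≤ θ := by
      rw [hθ, one_div_pow]
      apply one_div_le_one_div_of_le (by positivity)
      have h2 : 32 * (m + 1) < 2 ^ (32 * (m + 1)) := Nat.lt_two_pow_self
      exact_mod_cast h2.le
    have h2 : (1 / 2 : ℝ) ^ (2 * L) ≤ 1 / 2 ^ j := by
      rw [one_div_pow]
      apply one_div_le_one_div_of_le (by positivity)
      exact pow_le_pow_right₀ (by norm_num) hj.le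
    rw [hq, pow_add]
    have h3 := mul_le_mul h2 h1 (by positivity) (by positivity)
    refine h3.trans (le_of_eq ?_)
    ring
  refine ⟨q, L, η, by omega, hL, ?_, hη0, hη1, ?_⟩
  · have h1 : L < 2 ^ L := Nat.lt_two_pow_self
    have h2 : 2 ^ L ≤ 2 ^ q := Nat.pow_le_pow_right (by norm_num) (by omega)
    exact_mod_cast (h1.le.trans h2)
  intro V _ G d N hfree hemp hd hd1 hlll t
  have hd0 : (0 : ℝ) < d := by exact_mod_cast hd1
  have hLr : (1 : ℝ) ≤ L := by exact_mod_cast hL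
  induction t with
  | zero =>
    refine ⟨Fin N, inferInstance, fun _ => univ, fun _ _ => 0, fun _ => 1, fun _ => d,
      ?_, ?_, ?_, ?_, ?_, ?_⟩
    · intro i
      simp
    · intro i
      exact le_refl _
    · intro i v
      have h1 : (nb (cell G univ (fun _ => 0)) v).card ≤ (nb G v).card := by
        apply Finset.card_le_card
        intro u hu
        rw [mem_nb] at hu ⊢
        exact hu.1
      have h2 : ((nb (cell G univ (fun _ => 0)) v).card : ℝ) ≤ d := by
        exact_mod_cast h1.trans (hd v)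
      exact h2
    · intro i v
      exact Nat.one_pos
    · intro v
      simp
    · simp
  | succ t ih =>
    obtain ⟨I, _, A, c, n, s, h1, h2, h3, h4, h5, h6⟩ := ih
    have hs0 : ∀ i, 0 < s i := fun i => lt_of_lt_of_le (by positivity) (h1 i)
    have hLt : (1 : ℝ) ≤ L ^ t := one_le_pow₀ hLr
    obtain ⟨B, g, hB1, hB2, hB3⟩ := hsup V G d I A c n s (L ^ t * N) hfree hemp hd hs0 h3 h4 h5
      (by
        refine le_trans ?_ hlll
        apply mul_le_mul_of_nonneg_right _ (by positivity)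
        apply mul_le_mul_of_nonneg_left _ (by norm_num)
        apply Real.exp_le_exp.2
        have h7 : (N : ℝ) ≤ L ^ t * N := by
          have : (0 : ℝ) ≤ N := Nat.cast_nonneg _
          nlinarith
        have h8 := mul_le_mul_of_nonneg_left h7 (show 0 ≤ η ^ 2 / 4 by positivity)
        linarith)
    refine ⟨Fin (2 * L) × I, inferInstance, fun x => B x.1 x.2, fun x => g x.1 x.2,
      fun x => n x.2 * 2 ^ (x.1 : ℕ) * (m + 1), fun x => s x.2 * (θ / 2 ^ (x.1 : ℕ)),
      ?_, ?_, ?_, ?_, ?_, ?_⟩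
    · intro x
      have h7 := mul_le_mul (h1 x.2) (hqθ x.1 x.1.2) (by positivity) (hs0 x.2).le
      refine le_trans (le_of_eq ?_) h7
      rw [pow_succ]
      ring
    · intro x
      have h7 : θ / 2 ^ (x.1 : ℕ) ≤ 1 := by
        rw [div_le_one (by positivity)]
        exact hθ1.trans (one_le_pow₀ (by norm_num))
      have h8 := mul_le_mul_of_nonneg_left h7 (hs0 x.2).le
      have h9 := h2 x.2
      linarith
    · intro x v
      refine (hB2 x.1 x.1.2 x.2 v).trans (le_of_eq ?_)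
      ring
    · intro x v
      exact hB1 x.1 x.2 v
    · intro v
      have h7 := hB3 v
      have h8 : ((univ.filter (fun x : Fin (2 * L) × I => v ∈ B x.1 x.2)).card : ℝ) =
          ∑ j ∈ range (2 * L), ((univ.filter (fun i => v ∈ B j i)).card : ℝ) := by
        rw [← Fin.sum_univ_eq_sum_range (fun j => ((univ.filter (fun i => v ∈ B j i)).card : ℝ))]
        rw [Finset.card_filter, ← Finset.univ_product_univ, Finset.sum_product]
        push_cast
        apply Finset.sum_congr rfl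
        intro j _
        rw [Finset.card_filter]
        push_cast
        rfl
      rw [h8]
      refine le_trans (le_of_eq ?_) h7
      rw [pow_succ]
      ring
    · have hq1 : 1 ≤ q := by omega
      rw [← Finset.univ_product_univ, Finset.sum_product_right]
      have h7 : ∀ i : I, ∑ j : Fin (2 * L), (((n i * 2 ^ (j : ℕ) * (m + 1) : ℕ) : ℝ)) *
          (s i * (θ / 2 ^ (j : ℕ))) ^ (1 - 1 / (q : ℝ)) ≤
          (L / 8 : ℝ) * ((n i : ℝ) * s i ^ (1 - 1 / (q : ℝ))) := by
        intro i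
        have h8 : ∀ j ∈ (univ : Finset (Fin (2 * L))),
            (((n i * 2 ^ (j : ℕ) * (m + 1) : ℕ) : ℝ)) *
            (s i * (θ / 2 ^ (j : ℕ))) ^ (1 - 1 / (q : ℝ)) ≤
            (1 / 16) * ((n i : ℝ) * s i ^ (1 - 1 / (q : ℝ))) := by
          intro j _
          rw [Real.mul_rpow (hs0 i).le (by positivity)]
          have h9 := rpow_tau hq1 (hqθ j j.2)
          have h10 : 0 ≤ (((n i * 2 ^ (j : ℕ) * (m + 1) : ℕ) : ℝ)) *
              s i ^ (1 - 1 / (q : ℝ)) := by
            have := hs0 i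
            positivity
          have h11 := mul_le_mul_of_nonneg_left h9 h10
          have h12 : (((n i * 2 ^ (j : ℕ) * (m + 1) : ℕ) : ℝ)) *
              s i ^ (1 - 1 / (q : ℝ)) * (2 * (θ / 2 ^ (j : ℕ))) =
              (1 / 16) * ((n i : ℝ) * s i ^ (1 - 1 / (q : ℝ))) := by
            push_cast
            rw [hθ]
            field_simp
            ring
          rw [h12] at h11
          refine le_trans (le_of_eq ?_) h11
          ring
        refine (Finset.sum_le_sum h8).trans (le_of_eq ?_)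
        rw [Finset.sum_const, Finset.card_univ, Fintype.card_fin, nsmul_eq_mul]
        push_cast
        ring
      refine (Finset.sum_le_sum fun i _ => h7 i).trans ?_
      rw [← Finset.mul_sum]
      have h8 := mul_le_mul_of_nonneg_left h6 (show (0 : ℝ) ≤ L / 8 by positivity)
      refine h8.trans (le_of_eq ?_)
      rw [pow_succ]
      ring

open Classical in
/-- one step of the recursion on the maximum degree -/
theorem recursion {m k : ℕ} {T : SimpleGraph (Fin (m + 1))} (hT : T.IsTree) {q : ℕ} (hq : 2 ≤ q)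
    {C : ℝ} (hC : 0 < C) {d : ℕ} (hd1 : 1 ≤ d)
    (ih : ∀ d' : ℕ, 1 ≤ d' → d' < d → ∀ (V : Type) [Fintype V] (G : SimpleGraph V),
      G.CliqueFree k → IsEmpty (T ↪g G) → (∀ v, (nb G v).card ≤ d') →
      ∃ N : ℕ, G.Colorable N ∧ (N : ℝ) ≤ C * (d' : ℝ) ^ (1 - 1 / (q : ℝ)))
    (V : Type) [Fintype V] (G : SimpleGraph V) (hfree : G.CliqueFree k)
    (hemp : IsEmpty (T ↪g G)) (hd : ∀ v, (nb G v).card ≤ d) {R N t : ℕ} {W smin : ℝ}
    (hst : State G (1 / q) d R W smin) (hR : 4 ≤ R) (hsR : (R : ℝ) ≤ smin)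
    (hlll : 4 * (R * Real.exp (-(smin / R))) * (1 + d : ℝ) ^ 2 ≤ 1)
    (hN : 1 ≤ N) (hRN : (R : ℝ) ≤ (2 ^ q) ^ t * N)
    (hW : 3 * 2 ^ t * N / R * W ≤ (d : ℝ) ^ (1 - 1 / (q : ℝ))) :
    ∃ N : ℕ, G.Colorable N ∧ (N : ℝ) ≤ C * (d : ℝ) ^ (1 - 1 / (q : ℝ)) := by
  obtain ⟨I, _, A, c, n, s, h1, h2, h3, h4, h5, h6⟩ := hst
  have hRr : (4 : ℝ) ≤ R := by exact_mod_cast hR
  have hR0 : (0 : ℝ) < R := by linarith
  have hs0 : ∀ i, (R : ℝ) ≤ s i := fun i => hsR.trans (h1 i)
  obtain ⟨p, hp1, hp2⟩ := select G hd A c s h3 (by omega) (fun v => by exact_mod_cast h5 v)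
    (Real.exp_pos (-(smin / R))).le
    (by
      intro i
      apply Real.exp_le_exp.2
      have := div_le_div_of_nonneg_right (h1 i) hR0.le
      linarith) hlll
  have hcol : ∀ i x, ∃ N : ℕ,
      (cell G (univ.filter (fun v => p v = i ∧ c i v = x)) (fun _ => 0)).Colorable N ∧
      (N : ℝ) ≤ C * (3 * s i / R) ^ (1 - 1 / (q : ℝ)) := by
    intro i x
    obtain ⟨d', hd'⟩ : ∃ d' : ℕ, d' = ⌊3 * s i / R⌋₊ := ⟨_, rfl⟩
    have h7 : 1 ≤ 3 * s i / R := by
      rw [le_div_iff₀ hR0]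
      have := hs0 i
      linarith
    have h8 : 1 ≤ d' := by
      rw [hd']
      exact Nat.one_le_floor_iff _ |>.2 h7
    have h9 : (d' : ℝ) ≤ 3 * s i / R := by
      rw [hd']
      exact Nat.floor_le (by linarith)
    have h10 : d' < d := by
      have h11 : 3 * s i / R < d := by
        rw [div_lt_iff₀ hR0]
        have h12 := h2 i
        have h13 : (1 : ℝ) ≤ d := by exact_mod_cast hd1
        nlinarith
      exact_mod_cast lt_of_le_of_lt h9 h11
    obtain ⟨N', hN1, hN2⟩ := ih d' h8 h10 V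
      (cell G (univ.filter (fun v => p v = i ∧ c i v = x)) (fun _ => 0))
      (cell_clique hfree _ _) (cell_tree hT hemp _ _)
      (by
        intro v
        by_cases hv : v ∈ univ.filter (fun v => p v = i ∧ c i v = x)
        · have hv' := hv
          rw [Finset.mem_filter] at hv'
          obtain ⟨_, hv1, hv2⟩ := hv'
          rw [hd']
          apply Nat.le_floor
          have h12 := hp2 v
          rw [hv1] at h12
          refine le_trans ?_ h12
          have h13 : nb (cell G (univ.filter (fun v => p v = i ∧ c i v = x)) (fun _ => 0)) v ⊆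
              (nb (cell G (A i) (c i)) v).filter (fun u => p u = i) := by
            intro u hu
            rw [mem_nb] at hu
            obtain ⟨hu1, hu2, hu3, _⟩ := hu
            rw [Finset.mem_filter] at hu3
            rw [Finset.mem_filter, mem_nb]
            refine ⟨⟨hu1, ?_, ?_, ?_⟩, hu3.2.1⟩
            · rw [← hv1]
              exact hp1 v
            · rw [← hu3.2.1]
              exact hp1 u
            · rw [hv2, hu3.2.2]
          exact_mod_cast Finset.card_le_card h13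
        · rw [nb_cell_not _ hv]
          simp)
    refine ⟨N', hN1, hN2.trans ?_⟩
    apply mul_le_mul_of_nonneg_left _ hC.le
    apply Real.rpow_le_rpow (Nat.cast_nonneg _) h9
    have : 1 / (q : ℝ) ≤ 1 := by
      rw [div_le_one (by positivity)]
      exact_mod_cast (by omega : 1 ≤ q)
    linarith
  choose Nf hNf1 hNf2 using hcol
  obtain ⟨Ni, hNi⟩ : ∃ Ni : I → ℕ, Ni = fun i => ⌊C * (3 * s i / R) ^ (1 - 1 / (q : ℝ))⌋₊ :=
    ⟨_, rfl⟩
  have hpos : ∀ i, 0 ≤ C * (3 * s i / R) ^ (1 - 1 / (q : ℝ)) := by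
    intro i
    apply mul_nonneg hC.le
    apply Real.rpow_nonneg
    have := hs0 i
    apply div_nonneg _ hR0.le
    linarith
  have hcomb := combine G c n h4 p Ni (by
    intro i x
    apply (hNf1 i x).mono
    rw [hNi]
    exact Nat.le_floor (hNf2 i x))
  refine ⟨_, hcomb, ?_⟩
  have hq1 : 1 ≤ q := by omega
  have h7 := rpow_tau2 hq1 t N hN hR0 hRN
  push_cast
  calc ∑ i, (n i : ℝ) * (Ni i : ℝ) ≤
        ∑ i, (C * (3 / R) ^ (1 - 1 / (q : ℝ))) * ((n i : ℝ) * s i ^ (1 - 1 / (q : ℝ))) := by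
        apply Finset.sum_le_sum
        intro i _
        have h8 : (Ni i : ℝ) ≤ C * (3 * s i / R) ^ (1 - 1 / (q : ℝ)) := by
          rw [hNi]
          exact Nat.floor_le (hpos i)
        have h9 : (3 * s i / R) ^ (1 - 1 / (q : ℝ)) =
            (3 / R) ^ (1 - 1 / (q : ℝ)) * s i ^ (1 - 1 / (q : ℝ)) := by
          rw [← Real.mul_rpow (by positivity) (by have := hs0 i; linarith)]
          congr 1
          ring
        rw [h9] at h8
        have h10 := mul_le_mul_of_nonneg_left h8 (show (0 : ℝ) ≤ n i from Nat.cast_nonneg _)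
        refine h10.trans (le_of_eq ?_)
        ring
    _ = (C * (3 / R) ^ (1 - 1 / (q : ℝ))) * ∑ i, ((n i : ℝ) * s i ^ (1 - 1 / (q : ℝ))) := by
        rw [Finset.mul_sum]
    _ ≤ (C * (3 / R) ^ (1 - 1 / (q : ℝ))) * W := by
        apply mul_le_mul_of_nonneg_left h6
        positivity
    _ ≤ (C * (3 * 2 ^ t * N / R)) * W := by
        apply mul_le_mul_of_nonneg_right
        · exact mul_le_mul_of_nonneg_left h7 hC.le
        · refine le_trans (Finset.sum_nonneg ?_) h6
          intro i _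
          apply mul_nonneg (Nat.cast_nonneg _)
          apply Real.rpow_nonneg
          have := hs0 i
          linarith
    _ = C * (3 * 2 ^ t * N / R * W) := by ring
    _ ≤ C * (d : ℝ) ^ (1 - 1 / (q : ℝ)) := mul_le_mul_of_nonneg_left hW hC.le

end Pool.Agent.J4.H79.GS
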