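import Pool.Agent.J4.H79.GS.Coin
import Pool.Agent.Helper635.LLL

set_option autoImplicit false

/-!
# One round: concentration over the families and the local lemma
-/

namespace Pool.Agent.J4.H79.GS

open Finset Pool.Agent.Y394.AT Pool.Agent.R50.MC

open Classical in
/-- the proportion of outcomes in an event -/
noncomputable def pr {Ω : Type} [Fintype Ω] (P : Ω → Prop) : ℝ := av (fun ω => if P ω then 1 else 0)

open Classical in
theorem lll' {T C ι : Type} [Fintype T] [Fintype C] [inst : Fintype (T → C)] (I : Finset ι)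
    (B : ι → (T → C) → Prop) (S : ι → Finset T)
    (hB : ∀ i ∈ I, ∀ ω ω' : T → C, (∀ t ∈ S i, ω t = ω' t) → B i ω → B i ω') (p : ℝ) (d : ℕ)
    (hp0 : 0 ≤ p) (hp : ∀ i ∈ I, pr (B i) ≤ p)
    (hd : ∀ i ∈ I, ∃ N : Finset ι, N.card ≤ d ∧ ∀ j ∈ I, (∃ t, t ∈ S i ∧ t ∈ S j) → j ∈ N)
    (h4 : 4 * p * d ≤ 1) (hd1 : 1 ≤ d) (hne : Nonempty (T → C)) :
    ∃ ω : T → C, ∀ i ∈ I, ¬ B i ω := by
  obtain rfl : inst = @Pi.instFintype T (fun _ => C) (fun a b => propDecidable (a = b)) _ _ :=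
    Subsingleton.elim _ _
  apply Pool.Agent.Helper635.LLL.lll I B S hB p d hp0 _ _ h4 hd1 Fintype.card_pos
  · intro i hi
    have h1 := hp i hi
    unfold pr av at h1
    rw [div_le_iff₀ (by exact_mod_cast Fintype.card_pos)] at h1
    refine le_trans (le_of_eq ?_) h1
    rw [← Finset.sum_filter, Finset.sum_const, nsmul_eq_mul, mul_one]
    rfl
  · intro i hi
    obtain ⟨N, hN1, hN2⟩ := hd i hi
    refine le_trans (Finset.card_le_card ?_) hN1
    intro j hj
    rw [Finset.mem_filter, Finset.not_disjoint_iff] at hj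
    exact hN2 j hj.1 hj.2

theorem pr_markov {Ω : Type} [Fintype Ω] (P : Ω → Prop) (g : Ω → ℝ) (hg : ∀ ω, 0 ≤ g ω) (c : ℝ)
    (h : ∀ ω, P ω → c ≤ g ω) : pr P * c ≤ av g := by
  unfold pr
  rw [mul_comm, ← av_mul]
  apply av_mono
  intro ω
  by_cases hω : P ω
  · rw [if_pos hω, mul_one]
    exact h ω hω
  · rw [if_neg hω, mul_zero]
    exact hg ω

section chernoff

variable {I T C : Type} [Fintype I] [DecidableEq I] [Fintype T] [DecidableEq T] [Fintype C]

/-- exponential moments -/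
theorem exp_mom {Ω : Type} [Fintype Ω] [Nonempty Ω] (g : Ω → ℝ) (hg : ∀ ω, |g ω| ≤ 1) {l : ℝ}
    (hl0 : 0 ≤ l) (hl : l ≤ 1) : av (fun ω => Real.exp (l * g ω)) ≤ Real.exp (l * av g + l ^ 2) := by
  have h1 : ∀ ω, Real.exp (l * g ω) ≤ 1 + (l * g ω + l ^ 2) := by
    intro ω
    have h2 : |l * g ω| ≤ 1 := by
      rw [abs_mul, abs_of_nonneg hl0]
      have := mul_le_mul hl (hg ω) (abs_nonneg _) zero_le_one
      linarith
    have h3 := Real.abs_exp_sub_one_sub_id_le h2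
    have h4 := (abs_le.1 h3).2
    have h5 : (l * g ω) ^ 2 ≤ l ^ 2 := by
      rw [mul_pow]
      have h6 : g ω ^ 2 ≤ 1 := by
        rw [← sq_abs]
        have := hg ω
        nlinarith [abs_nonneg (g ω)]
      nlinarith [sq_nonneg l]
    linarith
  refine (av_mono h1).trans ?_
  rw [av_add, av_const, av_add, av_mul, av_const]
  have := Real.add_one_le_exp (l * av g + l ^ 2)
  linarith

theorem chern [Nonempty C] (g : I → (T → C) → ℝ) (J : Finset I)
    (hg : ∀ i ∈ J, ∀ ω, |g i ω| ≤ 1) (m : I → ℝ) (hm : ∀ i ∈ J, av (g i) ≤ m i) {η : ℝ}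
    (hη0 : 0 ≤ η) (hη : η ≤ 1) :
    pr (fun ω : I × T → C => ∑ i ∈ J, m i + η * J.card < ∑ i ∈ J, g i (fun t => ω (i, t))) ≤
      Real.exp (-(η ^ 2 / 4 * J.card)) := by
  obtain ⟨l, hl⟩ : ∃ l : ℝ, l = η / 2 := ⟨_, rfl⟩
  have hl0 : 0 ≤ l := by rw [hl]; linarith
  have hl1 : l ≤ 1 := by rw [hl]; linarith
  obtain ⟨P, hP⟩ : ∃ P : (I × T → C) → Prop, P = fun ω : I × T → C =>
    ∑ i ∈ J, m i + η * J.card < ∑ i ∈ J, g i (fun t => ω (i, t)) := ⟨_, rfl⟩
  rw [← hP]
  have h1 := pr_markov P (fun ω : I × T → C => Real.exp (l * ∑ i ∈ J, g i (fun t => ω (i, t))))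
    (fun ω => (Real.exp_pos _).le) (Real.exp (l * (∑ i ∈ J, m i + η * J.card)))
    (by
      intro ω hω
      rw [hP] at hω
      apply Real.exp_le_exp.2
      exact mul_le_mul_of_nonneg_left hω.le hl0)
  have h2 : av (fun ω : I × T → C => Real.exp (l * ∑ i ∈ J, g i (fun t => ω (i, t)))) =
      (∏ i, av (fun ω : T → C => if i ∈ J then Real.exp (l * g i ω) else 1)) := by
    rw [← av_pi]
    congr 1
    funext ω
    rw [Finset.mul_sum, Real.exp_sum]
    have e1 : ∀ i, (if i ∈ J then Real.exp (l * g i (fun t => ω (i, t))) else 1) =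
      if i ∈ J then (fun i => Real.exp (l * g i (fun t => ω (i, t)))) i else 1 := fun i => rfl
    rw [Finset.prod_ite_mem, Finset.univ_inter]
  have h3 : ∏ i, av (fun ω : T → C => if i ∈ J then Real.exp (l * g i ω) else 1) ≤
      Real.exp (∑ i ∈ J, (l * m i + l ^ 2)) := by
    rw [Real.exp_sum]
    rw [← Finset.prod_subset (Finset.subset_univ J)]
    · apply Finset.prod_le_prod
      · intro i _
        apply av_nonneg
        intro ω
        split_ifs
        · exact (Real.exp_pos _).le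
      · intro i hi
        have e1 : (fun ω : T → C => if i ∈ J then Real.exp (l * g i ω) else 1) =
            fun ω => Real.exp (l * g i ω) := by
          funext ω
          rw [if_pos hi]
        rw [e1]
        refine (exp_mom (g i) (hg i hi) hl0 hl1).trans ?_
        apply Real.exp_le_exp.2
        have := mul_le_mul_of_nonneg_left (hm i hi) hl0
        linarith
    · intro i _ hi
      have e1 : (fun ω : T → C => if i ∈ J then Real.exp (l * g i ω) else 1) =
          fun _ => (1 : ℝ) := by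
        funext ω
        rw [if_neg hi]
      rw [e1, av_const]
  rw [h2] at h1
  have h4 := h1.trans h3
  have h5 : Real.exp (∑ i ∈ J, (l * m i + l ^ 2)) = Real.exp (-(η ^ 2 / 4 * J.card)) *
      Real.exp (l * (∑ i ∈ J, m i + η * J.card)) := by
    rw [← Real.exp_add]
    congr 1
    rw [Finset.sum_add_distrib, ← Finset.mul_sum, Finset.sum_const, nsmul_eq_mul, hl]
    ring
  rw [h5] at h4
  exact le_of_mul_le_mul_right h4 (Real.exp_pos _)

end chernoff

section balls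

variable {V : Type} [Fintype V]

open Classical in
/-- balls -/
noncomputable def bl (G : SimpleGraph V) (v : V) : ℕ → Finset V
  | 0 => {v}
  | r + 1 => (bl G v r).biUnion (fun u => insert u (nb G u))

theorem bl_card (G : SimpleGraph V) {d : ℕ} (hd : ∀ v, (nb G v).card ≤ d) (v : V) (r : ℕ) :
    (bl G v r).card ≤ (1 + d) ^ r := by
  classical
  induction r with
  | zero => simp [bl]
  | succ r ih =>
    rw [bl]
    have h1 : ((bl G v r).biUnion (fun u => insert u (nb G u))).card ≤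
        ∑ u ∈ bl G v r, (1 + d) := by
      refine Finset.card_biUnion_le.trans (Finset.sum_le_sum ?_)
      intro u _
      have := Finset.card_insert_le u (nb G u)
      have := hd u
      omega
    rw [Finset.sum_const, smul_eq_mul] at h1
    rw [pow_succ]
    exact h1.trans (Nat.mul_le_mul_right _ ih)

theorem bl_step (G : SimpleGraph V) {v u w : V} {r : ℕ} (hu : u ∈ bl G v r)
    (h : w = u ∨ G.Adj u w) : w ∈ bl G v (r + 1) := by
  classical
  rw [bl, Finset.mem_biUnion]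
  refine ⟨u, hu, ?_⟩
  rw [Finset.mem_insert, mem_nb]
  exact h

theorem bl_self (G : SimpleGraph V) (v : V) : v ∈ bl G v 0 := by
  classical
  rw [bl]
  exact Finset.mem_singleton_self v

end balls

section round

variable {V : Type} [Fintype V]

omit [Fintype V] in
theorem xx_congr {n Q : ℕ} (f : Fin n → V → ℝ) (v : V) (ω ω' : Fin n ⊕ V → Bool × Fin Q)
    (h : ∀ j, f j v ≠ 0 → ω (Sum.inl j) = ω' (Sum.inl j)) :
    xx f univ v ω = xx f univ v ω' := by
  unfold xx
  apply Finset.sum_congr rfl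
  intro j _
  by_cases hj : f j v = 0
  · rw [hj]
    ring
  · rw [h j hj]

omit [Fintype V] in
theorem bt_congr {n Q : ℕ} (f : Fin n → V → ℝ) (M : ℝ) (v : V)
    (ω ω' : Fin n ⊕ V → Bool × Fin Q)
    (h : ∀ j, f j v ≠ 0 → ω (Sum.inl j) = ω' (Sum.inl j)) (h' : ω (Sum.inr v) = ω' (Sum.inr v)) :
    bt f M v ω = bt f M v ω' := by
  unfold bt yy
  rw [xx_congr f v ω ω' h, h']

open Classical in
/-- **One round.** -/
theorem round_lemma (G : SimpleGraph V) {d : ℕ} (hd : ∀ v, (nb G v).card ≤ d)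
    {I : Type} [Fintype I] (H : I → SimpleGraph V) (hHG : ∀ i u v, (H i).Adj u v → G.Adj u v)
    (D : I → ℝ) (hD : ∀ i, 0 < D i) (hdeg : ∀ i v, ((nb (H i) v).card : ℝ) ≤ D i)
    {n : ℕ} (f : I → Fin n → V → ℝ) {ε M η : ℝ} {Q : ℕ} (hM : 0 < M) (hQ : 0 < Q)
    (hη0 : 0 ≤ η) (hη : η ≤ 1)
    (hf1 : ∀ i v, ∑ j, f i j v ^ 2 ≤ 1)
    (hf2 : ∀ i j v, f i j v * ∑ u ∈ nb (H i) v, f i j u ≤ -(ε * D i) * f i j v ^ 2)
    (hf3 : ∀ i j, ∃ z, ∀ w, f i j w ≠ 0 → w ∈ ball2 (H i) univ z)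
    (Iv : V → Finset I) {R : ℝ} (hR : ∀ v, R ≤ (Iv v).card)
    (hlll : 4 * Real.exp (-(η ^ 2 / 4 * R)) * (1 + d : ℝ) ^ 6 ≤ 1) :
    ∃ b : I → V → Bool, ∀ v,
      ∑ i ∈ Iv v, (D i)⁻¹ * ∑ u ∈ nb (H i) v, sg (b i u) * sg (b i v) ≤
        ∑ i ∈ Iv v, (-(ε / M ^ 2) * (∑ j, f i j v ^ 2) + 12 / M ^ 4 + 4 / Q) +
          η * (Iv v).card := by
  have hneC : Nonempty (Bool × Fin Q) := ⟨(true, ⟨0, hQ⟩)⟩
  have hneT : Nonempty (I × (Fin n ⊕ V) → Bool × Fin Q) := ⟨fun _ => hneC.some⟩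
  obtain ⟨Z, hZ⟩ : ∃ Z : V → I → (Fin n ⊕ V → Bool × Fin Q) → ℝ, Z = fun v i ω =>
    (D i)⁻¹ * ∑ u ∈ nb (H i) v, sg (bt (f i) M u ω) * sg (bt (f i) M v ω) := ⟨_, rfl⟩
  obtain ⟨m, hm⟩ : ∃ m : V → I → ℝ, m = fun v i =>
    -(ε / M ^ 2) * (∑ j, f i j v ^ 2) + 12 / M ^ 4 + 4 / Q := ⟨_, rfl⟩
  have hZabs : ∀ v i ω, |Z v i ω| ≤ 1 := by
    intro v i ω
    rw [hZ]
    simp only
    rw [abs_mul, abs_of_pos (inv_pos.2 (hD i)), inv_mul_le_iff₀ (hD i), mul_one]
    refine (Finset.abs_sum_le_sum_abs _ _).trans ?_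
    refine le_trans (le_of_eq ?_) (hdeg i v)
    rw [Finset.sum_congr rfl (fun u _ => by rw [abs_mul, sg_abs, sg_abs, mul_one]),
      Finset.sum_const, nsmul_eq_mul, mul_one]
  have hZm : ∀ v i, av (Z v i) ≤ m v i := by
    intro v i
    rw [hZ, hm]
    exact av_Z hQ hM (hD i) (H i) (f i) (hf1 i) (hf2 i) v (hdeg i v)
  obtain ⟨B, hB⟩ : ∃ B : V → (I × (Fin n ⊕ V) → Bool × Fin Q) → Prop, B = fun v ω =>
    ∑ i ∈ Iv v, m v i + η * (Iv v).card < ∑ i ∈ Iv v, Z v i (fun t => ω (i, t)) := ⟨_, rfl⟩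
  obtain ⟨S, hS⟩ : ∃ S : V → Finset (I × (Fin n ⊕ V)), S = fun v => univ.filter
    (fun t : I × (Fin n ⊕ V) => Sum.elim (fun j => ∃ u, (u = v ∨ G.Adj v u) ∧ f t.1 j u ≠ 0)
      (fun u => u = v ∨ G.Adj v u) t.2) := ⟨_, rfl⟩
  have hdep : ∀ v, ∀ ω ω', (∀ t ∈ S v, ω t = ω' t) → B v ω → B v ω' := by
    intro v ω ω' h hb
    rw [hB] at hb ⊢
    simp only at hb ⊢
    have h1 : ∀ i, Z v i (fun t => ω (i, t)) = Z v i (fun t => ω' (i, t)) := by
      intro i
      have h2 : ∀ u, (u = v ∨ G.Adj v u) → bt (f i) M u (fun t => ω (i, t)) =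
          bt (f i) M u (fun t => ω' (i, t)) := by
        intro u hu
        apply bt_congr
        · intro j hj
          apply h
          rw [hS]
          exact Finset.mem_filter.2 ⟨Finset.mem_univ _, ⟨u, hu, hj⟩⟩
        · apply h
          rw [hS]
          exact Finset.mem_filter.2 ⟨Finset.mem_univ _, hu⟩
      rw [hZ]
      simp only
      rw [h2 v (Or.inl rfl)]
      congr 1
      apply Finset.sum_congr rfl
      intro u hu
      rw [mem_nb] at hu
      rw [h2 u (Or.inr (hHG i _ _ hu))]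
    rw [← Finset.sum_congr rfl (fun i _ => h1 i)]
    exact hb
  have hprob : ∀ v, pr (B v) ≤ Real.exp (-(η ^ 2 / 4 * R)) := by
    intro v
    have h1 := chern (C := Bool × Fin Q) (T := Fin n ⊕ V) (Z v) (Iv v)
      (fun i _ ω => hZabs v i ω) (m v) (fun i _ => hZm v i) hη0 hη
    rw [hB]
    refine h1.trans ?_
    apply Real.exp_le_exp.2
    have h2 : η ^ 2 / 4 * R ≤ η ^ 2 / 4 * ((Iv v).card : ℝ) :=
      mul_le_mul_of_nonneg_left (hR v) (by positivity)
    linarith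
  have hnbr : ∀ v v', (∃ t, t ∈ S v ∧ t ∈ S v') → v' ∈ bl G v 6 := by
    intro v v' hnd
    obtain ⟨⟨i, t⟩, h1, h2⟩ := hnd
    rw [hS, Finset.mem_filter] at h1 h2
    have h1' := h1.2
    have h2' := h2.2
    rcases t with j | u
    · simp only [Sum.elim_inl] at h1' h2'
      obtain ⟨u, hu, hfu⟩ := h1'
      obtain ⟨u', hu', hfu'⟩ := h2'
      obtain ⟨z, hz⟩ := hf3 i j
      have h3 := hz u hfu
      have h4 := hz u' hfu'
      have hch : ∀ w, w ∈ ball2 (H i) univ z → ∃ x, (x = z ∨ G.Adj z x) ∧ (w = x ∨ G.Adj x w) := by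
        intro w hw
        unfold ball2 at hw
        rw [Finset.mem_filter] at hw
        rcases hw.2 with h5 | h5 | ⟨x, _, h5, h6⟩
        · exact ⟨z, Or.inl rfl, Or.inl h5⟩
        · exact ⟨z, Or.inl rfl, Or.inr (hHG i _ _ h5)⟩
        · exact ⟨x, Or.inr (hHG i _ _ h5), Or.inr (hHG i _ _ h6)⟩
      obtain ⟨x, hx1, hx2⟩ := hch u h3
      obtain ⟨x', hx1', hx2'⟩ := hch u' h4
      have sym : ∀ a b, (a = b ∨ G.Adj b a) → (b = a ∨ G.Adj a b) := by
        intro a b hab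
        rcases hab with h5 | h5
        · exact Or.inl h5.symm
        · exact Or.inr h5.symm
      have s1 := bl_step G (bl_self G v) hu
      have s2 := bl_step G s1 (sym _ _ hx2)
      have s3 := bl_step G s2 (sym _ _ hx1)
      have s4 := bl_step G s3 hx1'
      have s5 := bl_step G s4 hx2'
      exact bl_step G s5 (sym _ _ hu')
    · simp only [Sum.elim_inr] at h1' h2'
      have s1 := bl_step G (bl_self G v) h1'
      have s2 : v' ∈ bl G v 2 := by
        apply bl_step G s1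
        rcases h2' with h5 | h5
        · exact Or.inl h5.symm
        · exact Or.inr h5.symm
      have s3 := bl_step G s2 (Or.inl rfl)
      have s4 := bl_step G s3 (Or.inl rfl)
      have s5 := bl_step G s4 (Or.inl rfl)
      exact bl_step G s5 (Or.inl rfl)
  obtain ⟨ω, hω⟩ := lll' (univ : Finset V) B S (fun v _ => hdep v)
    (Real.exp (-(η ^ 2 / 4 * R))) ((1 + d) ^ 6) (Real.exp_pos _).le (fun v _ => hprob v)
    (fun v _ => ⟨bl G v 6, bl_card G hd v 6, fun v' _ h => hnbr v v' h⟩)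
    (by push_cast; exact hlll) (Nat.one_le_pow _ _ (by omega)) hneT
  refine ⟨fun i v => bt (f i) M v (fun t => ω (i, t)), ?_⟩
  intro v
  have h1 := hω v (Finset.mem_univ v)
  rw [hB] at h1
  simp only [not_lt] at h1
  rw [hZ, hm] at h1
  exact h1

end round

end Pool.Agent.J4.H79.GS
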