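import Pool.Agent.J4.H79.GS.Super

set_option autoImplicit false

/-!
# Choosing one family for every vertex
-/

namespace Pool.Agent.J4.H79.GS

open Finset Pool.Agent.Y394.AT Pool.Agent.R50.MC

section

variable {V C : Type} [Fintype V] [DecidableEq V] [Fintype C]

theorem av_pi1 (g : V → C → ℝ) :
    av (fun ω : V → C => ∏ v, g v (ω v)) = ∏ v, av (g v) := by
  unfold av
  rw [Finset.prod_div_distrib]
  congr 1
  · rw [Finset.prod_univ_sum, Fintype.piFinset_univ]
  · rw [Finset.prod_const, Finset.card_univ, Fintype.card_fun]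
    push_cast
    rfl

end

theorem pr_nonneg {Ω : Type} [Fintype Ω] (P : Ω → Prop) : 0 ≤ pr P := by
  classical
  unfold pr
  apply av_nonneg
  intro ω
  split_ifs <;> norm_num

theorem pr_union {Ω ι : Type} [Fintype Ω] (s : Finset ι) (P : ι → Ω → Prop) :
    pr (fun ω => ∃ i ∈ s, P i ω) ≤ ∑ i ∈ s, pr (P i) := by
  classical
  unfold pr
  rw [← av_sum]
  apply av_mono
  intro ω
  by_cases h : ∃ i ∈ s, P i ω
  · rw [if_pos h]
    obtain ⟨i, hi, hP⟩ := h
    have h1 : (1 : ℝ) = if P i ω then 1 else 0 := by rw [if_pos hP]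
    refine (le_of_eq h1).trans ?_
    exact Finset.single_le_sum (f := fun i => if P i ω then (1 : ℝ) else 0)
      (fun j _ => by split_ifs <;> norm_num) hi
  · rw [if_neg h]
    apply Finset.sum_nonneg
    intro j _
    split_ifs <;> norm_num

variable {V : Type} [Fintype V]

open Classical in
/-- the number of neighbours choosing a given family is concentrated -/
theorem pick_prob {I : Type} {R : ℕ} (hR : 1 ≤ R) (e : V → Fin R → I)
    (he : ∀ v, Function.Injective (e v)) (S : Finset V) {s : ℝ} (hs : (S.card : ℝ) ≤ s) (i : I) :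
    pr (fun ω : V → Fin R => 3 * s / R < ((S.filter (fun u => e u (ω u) = i)).card : ℝ)) ≤
      Real.exp (-(s / R)) := by
  have hRr : (0 : ℝ) < R := by exact_mod_cast hR
  have hne : Nonempty (Fin R) := ⟨⟨0, hR⟩⟩
  have h1 := pr_markov (fun ω : V → Fin R =>
    3 * s / R < ((S.filter (fun u => e u (ω u) = i)).card : ℝ))
    (fun ω => Real.exp ((S.filter (fun u => e u (ω u) = i)).card : ℝ))
    (fun ω => (Real.exp_pos _).le) (Real.exp (3 * s / R))
    (fun ω hω => Real.exp_le_exp.2 hω.le)
  have h2 : av (fun ω : V → Fin R => Real.exp ((S.filter (fun u => e u (ω u) = i)).card : ℝ)) =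
      ∏ u, av (fun r : Fin R => if u ∈ S then Real.exp (if e u r = i then 1 else 0) else 1) := by
    rw [← av_pi1]
    congr 1
    funext ω
    rw [Finset.prod_ite_mem, Finset.univ_inter, ← Real.exp_sum]
    congr 1
    rw [← Finset.sum_filter, Finset.sum_const, nsmul_eq_mul, mul_one]
  have h3 : ∀ u, av (fun r : Fin R => if u ∈ S then Real.exp (if e u r = i then 1 else 0) else 1) ≤
      if u ∈ S then Real.exp (2 / R) else 1 := by
    intro u
    by_cases hu : u ∈ S
    · have e1 : (fun r : Fin R => if u ∈ S then Real.exp (if e u r = i then 1 else 0) else 1) =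
          fun r => Real.exp (if e u r = i then 1 else 0) := by
        funext r
        rw [if_pos hu]
      rw [e1, if_pos hu]
      have e2 : ∀ r : Fin R, Real.exp (if e u r = i then 1 else 0) ≤
          1 + 2 * (if e u r = i then 1 else 0) := by
        intro r
        split_ifs
        · have := Real.exp_one_lt_three
          linarith
        · simp
      refine (av_mono e2).trans ?_
      rw [av_add, av_const, av_mul]
      have e3 : av (fun r : Fin R => if e u r = i then (1 : ℝ) else 0) ≤ 1 / R := by
        unfold av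
        rw [Fintype.card_fin]
        apply div_le_div_of_nonneg_right _ hRr.le
        rw [← Finset.sum_filter, Finset.sum_const, nsmul_eq_mul, mul_one]
        have e4 : (univ.filter (fun r : Fin R => e u r = i)).card ≤ 1 := by
          rw [Finset.card_le_one]
          intro r hr r' hr'
          rw [Finset.mem_filter] at hr hr'
          exact he u (hr.2.trans hr'.2.symm)
        exact_mod_cast e4
      have e5 := Real.add_one_le_exp (2 / (R : ℝ))
      have e6 : (2 : ℝ) / R = 2 * (1 / R) := by ring
      linarith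
    · have e1 : (fun r : Fin R => if u ∈ S then Real.exp (if e u r = i then 1 else 0) else 1) =
          fun _ => (1 : ℝ) := by
        funext r
        rw [if_neg hu]
      rw [e1, if_neg hu, av_const]
  have h4 : ∏ u, av (fun r : Fin R => if u ∈ S then Real.exp (if e u r = i then 1 else 0) else 1) ≤
      Real.exp (2 * s / R) := by
    refine (Finset.prod_le_prod ?_ (fun u _ => h3 u)).trans ?_
    · intro u _
      apply av_nonneg
      intro r
      split_ifs <;> first | exact (Real.exp_pos _).le | exact zero_le_one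
    · rw [Finset.prod_ite_mem, Finset.univ_inter, Finset.prod_const, ← Real.exp_nat_mul]
      apply Real.exp_le_exp.2
      rw [mul_div_assoc', mul_comm]
      exact div_le_div_of_nonneg_right (by linarith) hRr.le
  rw [h2] at h1
  have h5 := h1.trans h4
  have h6 : Real.exp (2 * s / R) = Real.exp (-(s / R)) * Real.exp (3 * s / R) := by
    rw [← Real.exp_add]
    congr 1
    ring
  rw [h6] at h5
  exact le_of_mul_le_mul_right h5 (Real.exp_pos _)

open Classical in
/-- **Selection.** -/
theorem select (G : SimpleGraph V) {d : ℕ} (hd : ∀ v, (nb G v).card ≤ d)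
    {I : Type} [Fintype I] (A : I → Finset V) (c : I → V → ℕ) (s : I → ℝ)
    (hdeg : ∀ i v, ((nb (cell G (A i) (c i)) v).card : ℝ) ≤ s i) {R : ℕ} (hR : 1 ≤ R)
    (hA : ∀ v, R ≤ (univ.filter (fun i => v ∈ A i)).card) {δ : ℝ} (hδ0 : 0 ≤ δ)
    (hδ : ∀ i, Real.exp (-(s i / R)) ≤ δ) (h4 : 4 * (R * δ) * (1 + d : ℝ) ^ 2 ≤ 1) :
    ∃ p : V → I, (∀ v, v ∈ A (p v)) ∧ ∀ v,
      (((nb (cell G (A (p v)) (c (p v))) v).filter (fun u => p u = p v)).card : ℝ) ≤
        3 * s (p v) / R := by
  have hne : Nonempty (V → Fin R) := ⟨fun _ => ⟨0, hR⟩⟩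
  have hex : ∀ v, ∃ e : Fin R → I, Function.Injective e ∧ ∀ r, v ∈ A (e r) := by
    intro v
    obtain ⟨F, hF⟩ : ∃ F : Finset I, F = univ.filter (fun i => v ∈ A i) := ⟨_, rfl⟩
    have h1 := hA v
    rw [← hF] at h1
    have hF' : ∀ i ∈ F, v ∈ A i := by
      intro i hi
      rw [hF, Finset.mem_filter] at hi
      exact hi.2
    refine ⟨fun r => (F.equivFin.symm (Fin.castLE h1 r)).1, ?_, ?_⟩
    · intro r r' hrr
      have h2 := F.equivFin.symm.injective (Subtype.ext hrr)
      exact Fin.castLE_injective h1 h2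
    · intro r
      exact hF' _ (F.equivFin.symm (Fin.castLE h1 r)).2
  choose e he1 he2 using hex
  obtain ⟨P, hP⟩ : ∃ P : V → Fin R → (V → Fin R) → Prop, P = fun v r ω =>
    3 * s (e v r) / R < (((nb (cell G (A (e v r)) (c (e v r))) v).filter
      (fun u => e u (ω u) = e v r)).card : ℝ) := ⟨_, rfl⟩
  obtain ⟨ω, hω⟩ := lll' (univ : Finset V) (fun v ω => ∃ r ∈ (univ : Finset (Fin R)), P v r ω)
    (fun v => nb G v)
    (by
      intro v _ ω ω' h
      rintro ⟨r, hr, hb⟩
      refine ⟨r, hr, ?_⟩
      rw [hP] at hb ⊢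
      simp only at hb ⊢
      refine lt_of_lt_of_le hb (le_of_eq ?_)
      congr 2
      apply Finset.filter_congr
      intro u hu
      rw [mem_nb] at hu
      have h1 := h u ((mem_nb _ _ _).2 hu.1)
      rw [h1])
    (R * δ) ((1 + d) ^ 2) (by positivity)
    (by
      intro v _
      refine (pr_union univ (P v)).trans ?_
      have h1 : ∀ r ∈ (univ : Finset (Fin R)), pr (P v r) ≤ δ := by
        intro r _
        rw [hP]
        exact (pick_prob hR e he1 _ (hdeg (e v r) v) (e v r)).trans (hδ _)
      refine (Finset.sum_le_sum h1).trans (le_of_eq ?_)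
      rw [Finset.sum_const, Finset.card_univ, Fintype.card_fin, nsmul_eq_mul])
    (by
      intro v _
      refine ⟨bl G v 2, bl_card G hd v 2, ?_⟩
      rintro v' _ ⟨t, ht, ht'⟩
      rw [mem_nb] at ht ht'
      have s1 := bl_step G (bl_self G v) (Or.inr ht)
      exact bl_step G s1 (Or.inr ht'.symm))
    (by push_cast; exact h4) (Nat.one_le_pow _ _ (by omega)) hne
  refine ⟨fun v => e v (ω v), fun v => he2 v (ω v), ?_⟩
  intro v
  by_contra hcon
  push Not at hcon
  apply hω v (Finset.mem_univ v)
  refine ⟨ω v, Finset.mem_univ _, ?_⟩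
  rw [hP]
  exact hcon

/-- greedy colouring -/
theorem greedy_colour (G : SimpleGraph V) {d : ℕ} (hd : ∀ v, (nb G v).card ≤ d) :
    G.Colorable (d + 1) := by
  classical
  have key : ∀ S : Finset V, ∃ col : V → Fin (d + 1), ∀ u ∈ S, ∀ v ∈ S, G.Adj u v →
      col u ≠ col v := by
    intro S
    induction S using Finset.induction_on with
    | empty => exact ⟨fun _ => 0, by simp⟩
    | insert x S hx ih =>
      obtain ⟨col, hcol⟩ := ih
      have h1 : ((nb G x).image col).card < (univ : Finset (Fin (d + 1))).card := by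
        rw [Finset.card_univ, Fintype.card_fin]
        exact Nat.lt_succ_of_le (Finset.card_image_le.trans (hd x))
      obtain ⟨y, _, hy⟩ := Finset.exists_mem_notMem_of_card_lt_card h1
      refine ⟨Function.update col x y, ?_⟩
      have hne : ∀ w, G.Adj x w → y ≠ col w := by
        intro w hw h
        apply hy
        rw [h]
        exact Finset.mem_image_of_mem _ ((mem_nb _ _ _).2 hw)
      intro u hu v hv huv
      rw [Finset.mem_insert] at hu hv
      by_cases hux : u = x
      · have hvx : v ≠ x := fun h => huv.ne (hux.trans h.symm)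
        rw [hux, Function.update_self, Function.update_of_ne hvx]
        rw [hux] at huv
        exact hne v huv
      · by_cases hvx : v = x
        · rw [hvx, Function.update_self, Function.update_of_ne hux]
          rw [hvx] at huv
          exact (hne u huv.symm).symm
        · rw [Function.update_of_ne hux, Function.update_of_ne hvx]
          exact hcol u (hu.resolve_left hux) v (hv.resolve_left hvx) huv
  obtain ⟨col, hcol⟩ := key univ
  exact ⟨SimpleGraph.Coloring.mk col (fun {u v} huv => hcol u (Finset.mem_univ _) v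
    (Finset.mem_univ _) huv)⟩

open Classical in
/-- **Combining colourings of the cells.** -/
theorem combine (G : SimpleGraph V) {I : Type} [Fintype I] (c : I → V → ℕ)
    (n : I → ℕ) (hcn : ∀ i v, c i v < n i) (p : V → I) (N : I → ℕ)
    (hN : ∀ i x, (cell G (univ.filter (fun v => p v = i ∧ c i v = x)) (fun _ => 0)).Colorable
      (N i)) :
    G.Colorable (∑ i, n i * N i) := by
  have h1 : ∀ i x, Nonempty ((cell G (univ.filter (fun v => p v = i ∧ c i v = x))
      (fun _ => 0)).Coloring (Fin (N i))) := fun i x => hN i x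
  obtain ⟨col⟩ : Nonempty (∀ i x, (cell G (univ.filter (fun v => p v = i ∧ c i v = x))
      (fun _ => 0)).Coloring (Fin (N i))) := ⟨fun i x => (h1 i x).some⟩
  let f : V → Σ i : I, Fin (n i) × Fin (N i) := fun v =>
    ⟨p v, ⟨c (p v) v, hcn _ _⟩, col (p v) (c (p v) v) v⟩
  have hf : ∀ {u v}, G.Adj u v → f u ≠ f v := by
    intro u v huv h
    simp only [f, Sigma.mk.injEq] at h
    obtain ⟨h2, h3⟩ := h
    have key : ∀ (i : I) (_ : p v = i), HEq ((⟨c (p u) u, hcn _ _⟩ : Fin (n (p u))),
        col (p u) (c (p u) u) u) ((⟨c i v, hcn _ _⟩ : Fin (n i)), col i (c i v) v) →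
        p u = i → False := by
      intro i hi h4 h5
      subst h5
      have h6 := eq_of_heq h4
      rw [Prod.mk.injEq, Fin.mk.injEq] at h6
      obtain ⟨h7, h8⟩ := h6
      rw [← h7] at h8
      refine (col (p u) (c (p u) u)).valid ?_ h8
      refine ⟨huv, ?_, ?_, rfl⟩
      · exact Finset.mem_filter.2 ⟨Finset.mem_univ _, rfl, rfl⟩
      · exact Finset.mem_filter.2 ⟨Finset.mem_univ _, hi, h7.symm⟩
    exact key (p v) rfl h3 h2
  have h2 : G.Colorable (Fintype.card (Σ i : I, Fin (n i) × Fin (N i))) :=
    (SimpleGraph.Coloring.mk f hf).colorable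
  have h3 : Fintype.card (Σ i : I, Fin (n i) × Fin (N i)) = ∑ i, n i * N i := by
    rw [Fintype.card_sigma]
    apply Finset.sum_congr rfl
    intro i _
    rw [Fintype.card_prod, Fintype.card_fin, Fintype.card_fin]
  rw [h3] at h2
  exact h2

end Pool.Agent.J4.H79.GS
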