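import Pool.Agent.J4.H79.GS.Round

set_option autoImplicit false

/-!
# One round for a system of incomplete colourings
-/

namespace Pool.Agent.J4.H79.GS

open Finset Pool.Agent.Y394.AT Pool.Agent.R50.MC

/-- the edges inside the cells of a incomplete colouring -/
def cell {V : Type} (G : SimpleGraph V) (A : Finset V) (c : V → ℕ) : SimpleGraph V where
  Adj u v := G.Adj u v ∧ u ∈ A ∧ v ∈ A ∧ c u = c v
  symm := ⟨fun _ _ h => ⟨h.1.symm, h.2.2.1, h.2.1, h.2.2.2.symm⟩⟩
  loopless := ⟨fun v h => G.irrefl h.1⟩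

variable {V : Type} {G : SimpleGraph V}

theorem cell_tree {m : ℕ} {T : SimpleGraph (Fin (m + 1))} (hT : T.IsTree)
    (hG : IsEmpty (T ↪g G)) (A : Finset V) (c : V → ℕ) : IsEmpty (T ↪g cell G A c) := by
  constructor
  intro f
  have hc : ∀ a b, c (f a) = c (f b) := by
    intro a b
    obtain ⟨w⟩ := hT.connected.preconnected a b
    induction w with
    | nil => rfl
    | cons h _ ih => exact (f.map_rel_iff.2 h).2.2.2.trans ih
  have hA : ∀ a b, a ≠ b → f a ∈ A := by
    intro a b hab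
    obtain ⟨w⟩ := hT.connected.preconnected a b
    cases w with
    | nil => exact absurd rfl hab
    | cons h _ => exact (f.map_rel_iff.2 h).2.1
  apply hG.false
  refine ⟨f.toEmbedding, ?_⟩
  intro a b
  rw [← f.map_rel_iff]
  constructor
  · intro h
    have hab : a ≠ b := fun h' => by
      subst h'
      exact G.irrefl h
    exact ⟨h, hA a b hab, hA b a hab.symm, hc a b⟩
  · intro h
    exact h.1

theorem cell_clique {k : ℕ} (hG : G.CliqueFree k) (A : Finset V) (c : V → ℕ) :
    (cell G A c).CliqueFree k :=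
  hG.anti (fun _ _ h => h.1)

variable [Fintype V]

open Classical in
/-- the layer of a vertex -/
noncomputable def layer (H : SimpleGraph V) (W : Finset V) (b : ℝ) (m : ℕ)
    (h : peel H W b m = ∅) (v : V) : ℕ :=
  Nat.find (p := fun j => v ∉ peel H W b j) ⟨m, by rw [h]; exact Finset.notMem_empty _⟩

open Classical in
theorem layer_le (H : SimpleGraph V) (W : Finset V) (b : ℝ) (m : ℕ)
    (h : peel H W b m = ∅) (v : V) : layer H W b m h v ≤ m := by
  unfold layer
  apply Nat.find_min'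
  rw [h]
  exact Finset.notMem_empty _

open Classical in
theorem layer_deg (H : SimpleGraph V) (W : Finset V) (b : ℝ) (m : ℕ)
    (h : peel H W b m = ∅) {v : V} (hv : v ∈ W) :
    (((nb H v).filter (fun u => u ∈ W ∧ layer H W b m h u = layer H W b m h v)).card : ℝ) ≤ b := by
  obtain ⟨j, hj⟩ : ∃ j, layer H W b m h v = j := ⟨_, rfl⟩
  have hspec : ∀ u, u ∉ peel H W b (layer H W b m h u) := by
    intro u
    unfold layer
    exact Nat.find_spec (p := fun j => u ∉ peel H W b j) _
  have hmin : ∀ u i, i < layer H W b m h u → u ∈ peel H W b i := by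
    intro u i hi
    unfold layer at hi
    have := Nat.find_min _ hi
    push Not at this
    exact this
  rw [hj]
  cases j with
  | zero =>
    exfalso
    have h1 := hspec v
    rw [hj] at h1
    apply h1
    unfold peel
    exact hv
  | succ j =>
    have h1 := hspec v
    rw [hj] at h1
    have h2 : v ∈ peel H W b j := hmin v j (by rw [hj]; exact Nat.lt_succ_self j)
    have h3 : ((nb H v ∩ peel H W b j).card : ℝ) < b := by
      by_contra hcon
      push Not at hcon
      apply h1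
      rw [peel]
      exact Finset.mem_filter.2 ⟨h2, hcon⟩
    refine le_trans ?_ h3.le
    have : (nb H v).filter (fun u => u ∈ W ∧ layer H W b m h u = j + 1) ⊆
        nb H v ∩ peel H W b j := by
      intro u hu
      rw [Finset.mem_filter] at hu
      rw [Finset.mem_inter]
      exact ⟨hu.1, hmin u j (by rw [hu.2.2]; exact Nat.lt_succ_self j)⟩
    exact_mod_cast Finset.card_le_card this

open Classical in
/-- **One round for a system of incomplete colourings.** -/
theorem round_step (m k : ℕ) (T : SimpleGraph (Fin (m + 1))) (hT : T.IsTree) (γ : ℝ)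
    (hγ : 0 < γ) :
    ∃ ε : ℝ, 0 < ε ∧ ∀ (M η : ℝ) (Q : ℕ), 0 < M → 0 ≤ η → η ≤ 1 → 0 < Q →
      ∀ (V : Type) [Fintype V] (G : SimpleGraph V) (d : ℕ) (I : Type) [Fintype I]
        (A : I → Finset V) (c : I → V → ℕ) (D : I → ℝ) (Iv : V → Finset I) (R : ℝ),
        G.CliqueFree k → IsEmpty (T ↪g G) → (∀ v, (nb G v).card ≤ d) →
        (∀ i, 0 < D i) → (∀ i v, ((nb (cell G (A i) (c i)) v).card : ℝ) ≤ D i) →
        (∀ v, R ≤ (Iv v).card) →
        4 * Real.exp (-(η ^ 2 / 4 * R)) * (1 + d : ℝ) ^ 6 ≤ 1 →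
        ∃ (b : I → V → Bool) (U : I → Finset V) (l : I → V → ℕ),
          (∀ i, U i ⊆ A i) ∧ (∀ i v, l i v ≤ m) ∧
          (∀ i, ∀ v ∈ U i, (((nb (cell G (A i) (c i)) v).filter
            (fun u => u ∈ U i ∧ l i u = l i v)).card : ℝ) ≤ γ * D i) ∧
          ∀ v, ∑ i ∈ Iv v, (D i)⁻¹ * ∑ u ∈ nb (cell G (A i) (c i)) v, sg (b i u) * sg (b i v) ≤
            -(ε / M ^ 2) * (((Iv v).filter (fun i => v ∈ A i ∧ v ∉ U i)).card : ℝ) +
              (12 / M ^ 4 + 4 / Q + η) * (Iv v).card := by
  obtain ⟨ε, hε, hpeel⟩ := peel_empty m T hT k γ hγ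
  refine ⟨ε, hε, ?_⟩
  intro M η Q hM hη0 hη hQ V _ G d I _ A c D Iv R hfree hemp hd hD hdeg hR hlll
  rcases isEmpty_or_nonempty V with hV | hV
  · refine ⟨fun _ _ => true, fun _ => ∅, fun _ _ => 0, ?_, ?_, ?_, ?_⟩
    · intro i
      exact Finset.empty_subset _
    · intro i v
      exact Nat.zero_le _
    · intro i v
      exact (hV.false v).elim
    · intro v
      exact (hV.false v).elim
  have hcov : ∀ i, ∃ (n : ℕ) (f : ℕ → V → ℝ), (∀ j, n ≤ j → f j = fun _ => 0) ∧
      (∀ v, ∑ j ∈ range n, f j v ^ 2 ≤ 1) ∧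
      (∀ j, ∃ z, ∀ w, f j w ≠ 0 → w ∈ ball2 (cell G (A i) (c i)) univ z) ∧
      (∀ j v, f j v * ∑ u ∈ nb (cell G (A i) (c i)) v, f j u ≤ -(ε * D i) * f j v ^ 2) ∧
      ∀ z, ∑ j ∈ range n, f j z ^ 2 < 1 → ∀ g : V → ℝ,
        (∀ v, v ∉ ball2 (cell G (A i) (c i))
          (univ.filter (fun v => ∑ j ∈ range n, f j v ^ 2 < 1)) z → g v = 0) →
        -(ε * D i) * N2 g ≤ q (cell G (A i) (c i)) g := by
    intro i
    exact cover (cell G (A i) (c i)) (ε * D i) (mul_nonneg hε.le (hD i).le)
  choose n f hf0 hf1 hf3 hf2 hf4 using hcov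
  obtain ⟨N, hN⟩ : ∃ N : ℕ, ∀ i, n i ≤ N :=
    ⟨∑ i, n i, fun i => Finset.single_le_sum (f := n) (fun _ _ => Nat.zero_le _)
      (Finset.mem_univ i)⟩
  have hsumN : ∀ i v, ∑ j : Fin N, f i j v ^ 2 = ∑ j ∈ range (n i), f i j v ^ 2 := by
    intro i v
    rw [Fin.sum_univ_eq_sum_range (fun j => f i j v ^ 2) N]
    symm
    apply Finset.sum_subset
    · intro x hx
      rw [Finset.mem_range] at hx ⊢
      exact lt_of_lt_of_le hx (hN i)
    · intro x _ hx
      rw [Finset.mem_range, not_lt] at hx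
      rw [hf0 i x hx]
      ring
  obtain ⟨b, hb⟩ := round_lemma G hd (fun i => cell G (A i) (c i)) (fun i u v h => h.1) D hD hdeg
    (n := N) (fun i j v => f i j v) (ε := ε) (M := M) (η := η) (Q := Q) hM hQ hη0 hη
    (by
      intro i v
      rw [hsumN]
      exact hf1 i v)
    (by
      intro i j v
      exact hf2 i j v)
    (by
      intro i j
      exact hf3 i j)
    Iv hR hlll
  obtain ⟨W, hW⟩ : ∃ W : I → Finset V, W = fun i =>
    univ.filter (fun v => ∑ j ∈ range (n i), f i j v ^ 2 < 1) := ⟨_, rfl⟩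
  have hempty : ∀ i, peel (cell G (A i) (c i)) (W i) (γ * D i) m = ∅ := by
    intro i
    apply hpeel V (cell G (A i) (c i)) (W i) (D i) (hD i)
    · intro v _
      refine le_trans ?_ (hdeg i v)
      exact_mod_cast Finset.card_le_card Finset.inter_subset_left
    · intro t _ htc
      exact cell_clique hfree (A i) (c i) t htc
    · exact cell_tree hT hemp (A i) (c i)
    · intro z hz g hg
      rw [hW] at hz hg
      rw [Finset.mem_filter] at hz
      exact hf4 i z hz.2 g hg
  refine ⟨b, fun i => W i ∩ A i, fun i => layer _ (W i) _ m (hempty i), ?_, ?_, ?_, ?_⟩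
  · intro i
    exact Finset.inter_subset_right
  · intro i v
    exact layer_le _ _ _ _ _ _
  · intro i v hv
    rw [Finset.mem_inter] at hv
    refine le_trans ?_ (layer_deg _ (W i) _ m (hempty i) hv.1)
    have : (nb (cell G (A i) (c i)) v).filter (fun u => u ∈ W i ∩ A i ∧
        layer _ (W i) _ m (hempty i) u = layer _ (W i) _ m (hempty i) v) ⊆
        (nb (cell G (A i) (c i)) v).filter (fun u => u ∈ W i ∧
        layer _ (W i) _ m (hempty i) u = layer _ (W i) _ m (hempty i) v) := by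
      intro u hu
      rw [Finset.mem_filter, Finset.mem_inter] at hu
      rw [Finset.mem_filter]
      exact ⟨hu.1, hu.2.1.1, hu.2.2⟩
    exact_mod_cast Finset.card_le_card this
  · intro v
    refine (hb v).trans ?_
    have h1 : ∑ i ∈ Iv v, (-(ε / M ^ 2) * (∑ j : Fin N, f i j v ^ 2) + 12 / M ^ 4 + 4 / Q) ≤
        ∑ i ∈ Iv v, (-(ε / M ^ 2) * (if v ∈ A i ∧ v ∉ W i ∩ A i then 1 else 0) +
          (12 / M ^ 4 + 4 / Q)) := by
      apply Finset.sum_le_sum
      intro i _
      have h2 : (if v ∈ A i ∧ v ∉ W i ∩ A i then (1 : ℝ) else 0) ≤ ∑ j : Fin N, f i j v ^ 2 := by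
        rw [hsumN]
        split_ifs with h3
        · by_contra hcon
          push Not at hcon
          apply h3.2
          rw [Finset.mem_inter, hW]
          exact ⟨Finset.mem_filter.2 ⟨Finset.mem_univ _, hcon⟩, h3.1⟩
        · exact Finset.sum_nonneg fun _ _ => sq_nonneg _
      have h3 : 0 ≤ ε / M ^ 2 := by positivity
      have h4 := mul_le_mul_of_nonneg_left h2 h3
      linarith
    have h2 : ∑ i ∈ Iv v, (-(ε / M ^ 2) * (if v ∈ A i ∧ v ∉ W i ∩ A i then 1 else 0) +
          (12 / M ^ 4 + 4 / Q)) =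
        -(ε / M ^ 2) * (((Iv v).filter (fun i => v ∈ A i ∧ v ∉ W i ∩ A i)).card : ℝ) +
          (12 / M ^ 4 + 4 / Q) * (Iv v).card := by
      rw [Finset.sum_add_distrib, ← Finset.mul_sum, Finset.sum_const, nsmul_eq_mul]
      congr 1
      · congr 1
        rw [← Finset.sum_filter, Finset.sum_const, nsmul_eq_mul, mul_one]
      · ring
    rw [h2] at h1
    refine le_trans (add_le_add h1 le_rfl) (le_of_eq ?_)
    ring

end Pool.Agent.J4.H79.GS
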