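import Pool.Agent.J4.H79.GS.Step

set_option autoImplicit false

/-!
# Many rounds
-/

namespace Pool.Agent.J4.H79.GS

open Finset Pool.Agent.Y394.AT Pool.Agent.R50.MC

variable {V : Type} [Fintype V] {G : SimpleGraph V}

theorem nb_cell_mono {A A' : Finset V} (h : A' ⊆ A) (c : V → ℕ) (v : V) :
    nb (cell G A' c) v ⊆ nb (cell G A c) v := by
  intro u hu
  rw [mem_nb] at hu ⊢
  exact ⟨hu.1, h hu.2.1, h hu.2.2.1, hu.2.2.2⟩

theorem nb_cell_not {A : Finset V} (c : V → ℕ) {v : V} (hv : v ∉ A) :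
    nb (cell G A c) v = ∅ := by
  rw [Finset.eq_empty_iff_forall_notMem]
  intro u hu
  rw [mem_nb] at hu
  exact hv hu.2.1

/-- append a bit to a colour -/
def dbl (c : V → ℕ) (b : V → Bool) (v : V) : ℕ := 2 * c v + (if b v then 1 else 0)

open Classical in
theorem nb_dbl (A : Finset V) (c : V → ℕ) (b : V → Bool) (v : V) :
    nb (cell G A (dbl c b)) v = (nb (cell G A c) v).filter (fun u => b u = b v) := by
  ext u
  rw [Finset.mem_filter, mem_nb, mem_nb]
  unfold cell dbl
  simp only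
  constructor
  · rintro ⟨h1, h2, h3, h4⟩
    cases hu : b u <;> cases hv : b v <;> simp only [hu, hv] at h4 ⊢ <;> simp at h4 ⊢
    · exact ⟨h1, h2, h3, h4⟩
    · omega
    · omega
    · exact ⟨h1, h2, h3, h4⟩
  · rintro ⟨⟨h1, h2, h3, h4⟩, h5⟩
    refine ⟨h1, h2, h3, ?_⟩
    rw [h4, h5]

open Classical in
theorem deg_dbl (A : Finset V) (c : V → ℕ) (b : V → Bool) (v : V) :
    2 * ((nb (cell G A (dbl c b)) v).card : ℝ) = ((nb (cell G A c) v).card : ℝ) +
      ∑ u ∈ nb (cell G A c) v, sg (b u) * sg (b v) := by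
  rw [nb_dbl]
  have h1 : ∀ u ∈ nb (cell G A c) v, sg (b u) * sg (b v) =
      2 * (if b u = b v then 1 else 0) - 1 := by
    intro u _
    unfold sg
    cases b u <;> cases b v <;> norm_num
  rw [Finset.sum_congr rfl h1, Finset.sum_sub_distrib, ← Finset.mul_sum, ← Finset.sum_filter,
    Finset.sum_const, Finset.sum_const, nsmul_eq_mul, nsmul_eq_mul]
  ring

open Classical in
/-- the potential of a vertex in one family -/
noncomputable def pot (G : SimpleGraph V) (K : ℝ) (A : Finset V) (c : V → ℕ) (s : ℝ) (v : V) : ℝ :=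
  if v ∈ A then ((nb (cell G A c) v).card : ℝ) / s else K

theorem pot_nonneg {K : ℝ} (hK : 0 ≤ K) (A : Finset V) (c : V → ℕ) {s : ℝ} (hs : 0 < s) (v : V) :
    0 ≤ pot G K A c s v := by
  unfold pot
  split_ifs
  · positivity
  · exact hK

open Classical in
theorem pot_step {K s : ℝ} (hK : 0 < K) (hs : 0 < s) (A A' : Finset V) (c : V → ℕ) (b : V → Bool)
    (hA' : A' = A.filter (fun v => ((nb (cell G A (dbl c b)) v).card : ℝ) ≤ K * (s / 2))) (v : V) :
    pot G K A' (dbl c b) (s / 2) v ≤ pot G K A c s v +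
      K * ((K * s)⁻¹ * ∑ u ∈ nb (cell G A c) v, sg (b u) * sg (b v)) := by
  have hA : A' ⊆ A := by rw [hA']; exact Finset.filter_subset _ _
  have e0 : K * ((K * s)⁻¹ * ∑ u ∈ nb (cell G A c) v, sg (b u) * sg (b v)) =
      (∑ u ∈ nb (cell G A c) v, sg (b u) * sg (b v)) / s := by
    generalize (∑ u ∈ nb (cell G A c) v, sg (b u) * sg (b v)) = X
    field_simp
  rw [e0]
  by_cases hv : v ∈ A
  · have h1 : ((nb (cell G A (dbl c b)) v).card : ℝ) / (s / 2) = pot G K A c s v +
        (∑ u ∈ nb (cell G A c) v, sg (b u) * sg (b v)) / s := by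
      unfold pot
      rw [if_pos hv]
      have h2 := deg_dbl (G := G) A c b v
      have h3 : ((nb (cell G A (dbl c b)) v).card : ℝ) / (s / 2) =
          (2 * ((nb (cell G A (dbl c b)) v).card : ℝ)) / s := by
        field_simp
      rw [h3, h2, add_div]
    rw [← h1]
    by_cases hv' : v ∈ A'
    · unfold pot
      rw [if_pos hv']
      apply div_le_div_of_nonneg_right _ (by positivity)
      exact_mod_cast Finset.card_le_card (nb_cell_mono hA _ v)
    · unfold pot
      rw [if_neg hv']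
      have h2 : K * (s / 2) < ((nb (cell G A (dbl c b)) v).card : ℝ) := by
        by_contra hcon
        push Not at hcon
        apply hv'
        rw [hA']
        exact Finset.mem_filter.2 ⟨hv, hcon⟩
      rw [le_div_iff₀ (by positivity)]
      exact h2.le
  · have hv' : v ∉ A' := fun h => hv (hA h)
    unfold pot
    rw [if_neg hv, if_neg hv', nb_cell_not c hv]
    simp

open Classical in
/-- **Many rounds.** -/
theorem rounds {m k : ℕ} {T : SimpleGraph (Fin (m + 1))} {γ ε M η K : ℝ} {Q : ℕ}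
    (hγ : 0 < γ) (hε : 0 < ε) (hM : 0 < M) (hη0 : 0 ≤ η) (hQ : 0 < Q) (hK : 0 < K)
    (hstep : ∀ (V : Type) [Fintype V] (G : SimpleGraph V) (d : ℕ) (I : Type) [Fintype I]
        (A : I → Finset V) (c : I → V → ℕ) (D : I → ℝ) (Iv : V → Finset I) (R : ℝ),
        G.CliqueFree k → IsEmpty (T ↪g G) → (∀ v, (nb G v).card ≤ d) →
        (∀ i, 0 < D i) → (∀ i v, ((nb (cell G (A i) (c i)) v).card : ℝ) ≤ D i) →
        (∀ v, R ≤ (Iv v).card) →
        4 * Real.exp (-(η ^ 2 / 4 * R)) * (1 + d : ℝ) ^ 6 ≤ 1 →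
        ∃ (b : I → V → Bool) (U : I → Finset V) (l : I → V → ℕ),
          (∀ i, U i ⊆ A i) ∧ (∀ i v, l i v ≤ m) ∧
          (∀ i, ∀ v ∈ U i, (((nb (cell G (A i) (c i)) v).filter
            (fun u => u ∈ U i ∧ l i u = l i v)).card : ℝ) ≤ γ * D i) ∧
          ∀ v, ∑ i ∈ Iv v, (D i)⁻¹ * ∑ u ∈ nb (cell G (A i) (c i)) v, sg (b i u) * sg (b i v) ≤
            -(ε / M ^ 2) * (((Iv v).filter (fun i => v ∈ A i ∧ v ∉ U i)).card : ℝ) +
              (12 / M ^ 4 + 4 / Q + η) * (Iv v).card)
    (V : Type) [Fintype V] (G : SimpleGraph V) (d : ℕ) (I : Type) [Fintype I]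
    (Iv : V → Finset I) (R : ℝ) (hfree : G.CliqueFree k) (hemp : IsEmpty (T ↪g G))
    (hd : ∀ v, (nb G v).card ≤ d) (hR : ∀ v, R ≤ (Iv v).card)
    (hlll : 4 * Real.exp (-(η ^ 2 / 4 * R)) * (1 + d : ℝ) ^ 6 ≤ 1) :
    ∀ (r : ℕ) (A : I → Finset V) (c : I → V → ℕ) (s : I → ℝ), (∀ i, 0 < s i) →
      (∀ i v, ((nb (cell G (A i) (c i)) v).card : ℝ) ≤ K * s i) →
      ∃ (B : ℕ → I → Finset V) (g : ℕ → I → V → ℕ),
        (∀ j i, B j i ⊆ A i) ∧
        (∀ j i v n, c i v < n → g j i v < n * 2 ^ j * (m + 1)) ∧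
        (∀ j, j < r → ∀ i v, ((nb (cell G (B j i) (g j i)) v).card : ℝ) ≤
          γ * (K * (s i / 2 ^ j))) ∧
        ∀ v, ∑ j ∈ range r, (((Iv v).filter (fun i => v ∉ B j i)).card : ℝ) ≤
          (∑ i ∈ Iv v, pot G K (A i) (c i) (s i) v +
            r * ((12 / M ^ 4 + 4 / Q + η) * K * (Iv v).card)) *
              (1 / (ε / M ^ 2 * K) + r / K) := by
  intro r
  obtain ⟨κ, hκ⟩ : ∃ κ : ℝ, κ = 12 / M ^ 4 + 4 / Q + η := ⟨_, rfl⟩
  have hκ0 : 0 ≤ κ := by rw [hκ]; positivity
  rw [← hκ] at hstep ⊢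
  obtain ⟨a, ha⟩ : ∃ a : ℝ, a = ε / M ^ 2 := ⟨_, rfl⟩
  have ha0 : 0 < a := by rw [ha]; positivity
  rw [← ha] at hstep ⊢
  induction r with
  | zero =>
    intro A c s hs hdeg
    refine ⟨fun _ _ => ∅, fun _ _ _ => 0, ?_, ?_, ?_, ?_⟩
    · intro j i
      exact Finset.empty_subset _
    · intro j i v n hn
      have : 0 < n := by omega
      positivity
    · intro j hj
      omega
    · intro v
      have h1 : 0 ≤ ∑ i ∈ Iv v, pot G K (A i) (c i) (s i) v :=
        Finset.sum_nonneg fun i _ => pot_nonneg hK.le _ _ (hs i) v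
      simp only [Finset.range_zero, Finset.sum_empty, Nat.cast_zero, zero_mul, add_zero, zero_div]
      positivity
  | succ r ih =>
    intro A c s hs hdeg
    obtain ⟨b, U, l, hU1, hU2, hU3, hU4⟩ := hstep V G d I A c (fun i => K * s i) Iv R hfree hemp hd
      (fun i => mul_pos hK (hs i)) hdeg hR hlll
    obtain ⟨A', hA'⟩ : ∃ A' : I → Finset V, A' = fun i => (A i).filter
      (fun v => ((nb (cell G (A i) (dbl (c i) (b i))) v).card : ℝ) ≤ K * (s i / 2)) := ⟨_, rfl⟩
    have hA'A : ∀ i, A' i ⊆ A i := by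
      intro i
      rw [hA']
      exact Finset.filter_subset _ _
    obtain ⟨B, g, hB1, hB2, hB3, hB4⟩ := ih A' (fun i => dbl (c i) (b i)) (fun i => s i / 2)
      (fun i => half_pos (hs i))
      (by
        intro i v
        by_cases hv : v ∈ A' i
        · have h1 : ((nb (cell G (A' i) (dbl (c i) (b i))) v).card : ℝ) ≤
              ((nb (cell G (A i) (dbl (c i) (b i))) v).card : ℝ) := by
            exact_mod_cast Finset.card_le_card (nb_cell_mono (hA'A i) _ v)
          refine h1.trans ?_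
          rw [hA', Finset.mem_filter] at hv
          exact hv.2
        · rw [nb_cell_not _ hv, Finset.card_empty, Nat.cast_zero]
          exact mul_nonneg hK.le (half_pos (hs i)).le)
    obtain ⟨Bn, hBn0, hBns⟩ : ∃ Bn : ℕ → I → Finset V, Bn 0 = U ∧ ∀ j, Bn (j + 1) = B j :=
      ⟨fun j => Nat.casesOn j U B, rfl, fun _ => rfl⟩
    obtain ⟨gn, hgn0, hgns⟩ : ∃ gn : ℕ → I → V → ℕ,
        gn 0 = (fun i v => c i v * (m + 1) + l i v) ∧ ∀ j, gn (j + 1) = g j :=
      ⟨fun j => Nat.casesOn j (fun i v => c i v * (m + 1) + l i v) g, rfl, fun _ => rfl⟩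
    refine ⟨Bn, gn, ?_, ?_, ?_, ?_⟩
    · intro j i
      cases j with
      | zero => rw [hBn0]; exact hU1 i
      | succ j => rw [hBns]; exact (hB1 j i).trans (hA'A i)
    · intro j i v n hn
      cases j with
      | zero =>
        rw [hgn0]
        simp only [pow_zero, mul_one]
        have h1 := hU2 i v
        have h2 : c i v + 1 ≤ n := hn
        have h3 := Nat.mul_le_mul_right (m + 1) h2
        rw [Nat.succ_mul] at h3
        linarith
      | succ j =>
        rw [hgns]
        have h1 : dbl (c i) (b i) v < 2 * n := by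
          unfold dbl
          split_ifs <;> omega
        have h2 := hB2 j i v (2 * n) h1
        have h3 : 2 * n * 2 ^ j * (m + 1) = n * 2 ^ (j + 1) * (m + 1) := by
          rw [pow_succ]
          ring
        rw [h3] at h2
        exact h2
    · intro j hj i v
      cases j with
      | zero =>
        rw [hBn0, hgn0]
        simp only [pow_zero, div_one]
        by_cases hv : v ∈ U i
        · refine le_trans ?_ (hU3 i v hv)
          have : nb (cell G (U i) (fun v => c i v * (m + 1) + l i v)) v ⊆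
              (nb (cell G (A i) (c i)) v).filter (fun u => u ∈ U i ∧ l i u = l i v) := by
            intro u hu
            rw [mem_nb] at hu
            obtain ⟨h1, h2, h3, h4⟩ := hu
            simp only at h4
            have h5 := hU2 i u
            have h6 := hU2 i v
            have h7 : l i u = l i v := by
              have e1 : (c i v * (m + 1) + l i v) % (m + 1) = l i v := by
                rw [Nat.add_comm, Nat.add_mul_mod_self_right]
                exact Nat.mod_eq_of_lt (by omega)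
              have e2 : (c i u * (m + 1) + l i u) % (m + 1) = l i u := by
                rw [Nat.add_comm, Nat.add_mul_mod_self_right]
                exact Nat.mod_eq_of_lt (by omega)
              rw [← e1, ← e2, h4]
            have h8 : c i v = c i u := by
              have e3 : c i v * (m + 1) = c i u * (m + 1) := by omega
              exact Nat.eq_of_mul_eq_mul_right (by omega) e3
            rw [Finset.mem_filter, mem_nb]
            exact ⟨⟨h1, hU1 i h2, hU1 i h3, h8⟩, h3, h7⟩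
          exact_mod_cast Finset.card_le_card this
        · have h1 : nb (cell G (U i) (fun v => c i v * (m + 1) + l i v)) v = ∅ :=
            nb_cell_not _ hv
          have h2 : ((nb (cell G (U i) (fun v => c i v * (m + 1) + l i v)) v).card : ℝ) = 0 := by
            rw [h1]
            simp
          refine le_trans (le_of_eq h2) ?_
          have := hs i
          positivity
      | succ j =>
        rw [hBns, hgns]
        have h1 := hB3 j (by omega) i v
        have h2 : γ * (K * (s i / 2 / 2 ^ j)) = γ * (K * (s i / 2 ^ (j + 1))) := by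
          rw [pow_succ]
          field_simp
        rw [h2] at h1
        exact h1
    · intro v
      rw [Finset.sum_range_succ']
      simp only [hBns, hBn0]
      have h1 := hB4 v
      obtain ⟨Φ, hΦ⟩ : ∃ Φ : ℝ, Φ = ∑ i ∈ Iv v, pot G K (A i) (c i) (s i) v := ⟨_, rfl⟩
      obtain ⟨Φ', hΦ'⟩ : ∃ Φ' : ℝ, Φ' = ∑ i ∈ Iv v, pot G K (A' i) (dbl (c i) (b i)) (s i / 2) v :=
        ⟨_, rfl⟩
      rw [← hΦ'] at h1
      rw [← hΦ]
      obtain ⟨N, hN⟩ : ∃ N : ℝ, N = ((Iv v).card : ℝ) := ⟨_, rfl⟩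
      have hN0 : 0 ≤ N := by rw [hN]; exact Nat.cast_nonneg _
      obtain ⟨cv, hcv⟩ : ∃ cv : ℝ, cv = (((Iv v).filter (fun i => v ∈ A i ∧ v ∉ U i)).card : ℝ) :=
        ⟨_, rfl⟩
      obtain ⟨dd, hdd⟩ : ∃ dd : ℝ, dd = (((Iv v).filter (fun i => v ∉ A i)).card : ℝ) :=
        ⟨_, rfl⟩
      have hstepv := hU4 v
      rw [← hcv, ← hN] at hstepv
      rw [← hN] at h1 ⊢
      -- potential decrease
      have h2 : Φ' ≤ Φ + K * (-a * cv + κ * N) := by
        have h3 : Φ' ≤ ∑ i ∈ Iv v, (pot G K (A i) (c i) (s i) v + K * ((K * s i)⁻¹ *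
            ∑ u ∈ nb (cell G (A i) (c i)) v, sg (b i u) * sg (b i v))) := by
          rw [hΦ']
          apply Finset.sum_le_sum
          intro i _
          exact pot_step hK (hs i) (A i) (A' i) (c i) (b i) (by rw [hA']) v
        rw [Finset.sum_add_distrib, ← Finset.mul_sum, ← hΦ] at h3
        have h4 := mul_le_mul_of_nonneg_left hstepv hK.le
        linarith
      -- dead
      have h3 : K * dd ≤ Φ := by
        rw [hdd, hΦ]
        have h4 : K * (((Iv v).filter (fun i => v ∉ A i)).card : ℝ) =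
            ∑ i ∈ (Iv v).filter (fun i => v ∉ A i), pot G K (A i) (c i) (s i) v := by
          rw [mul_comm, ← nsmul_eq_mul, ← Finset.sum_const]
          apply Finset.sum_congr rfl
          intro i hi
          rw [Finset.mem_filter] at hi
          unfold pot
          rw [if_neg hi.2]
        rw [h4]
        exact Finset.sum_le_sum_of_subset_of_nonneg (Finset.filter_subset _ _)
          (fun i _ _ => pot_nonneg hK.le _ _ (hs i) v)
      -- the first round
      have h4 : (((Iv v).filter (fun i => v ∉ U i)).card : ℝ) ≤ dd + cv := by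
        rw [hdd, hcv]
        have : (Iv v).filter (fun i => v ∉ U i) ⊆ (Iv v).filter (fun i => v ∉ A i) ∪
            (Iv v).filter (fun i => v ∈ A i ∧ v ∉ U i) := by
          intro i hi
          rw [Finset.mem_filter] at hi
          rw [Finset.mem_union, Finset.mem_filter, Finset.mem_filter]
          by_cases h5 : v ∈ A i
          · exact Or.inr ⟨hi.1, h5, hi.2⟩
          · exact Or.inl ⟨hi.1, h5⟩
        exact_mod_cast (Finset.card_le_card this).trans (Finset.card_union_le _ _)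
      have hΦ'0 : 0 ≤ Φ' := by
        rw [hΦ']
        exact Finset.sum_nonneg fun i _ => pot_nonneg hK.le _ _ (half_pos (hs i)) v
      have h5 : dd ≤ Φ / K := by
        rw [le_div_iff₀ hK]
        linarith
      have hcv0 : 0 ≤ cv := by rw [hcv]; exact Nat.cast_nonneg _
      have h6 : cv ≤ (Φ + κ * K * N - Φ') / (a * K) := by
        rw [le_div_iff₀ (by positivity)]
        nlinarith
      have h7 : Φ' ≤ Φ + κ * K * N := by
        have : 0 ≤ K * (a * cv) := by positivity
        nlinarith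
      have h8 : (Φ' + r * (κ * K * N)) * (1 / (a * K) + r / K) ≤
          (Φ' + r * (κ * K * N)) * (1 / (a * K)) +
            (Φ + (r + 1) * (κ * K * N)) * (r / K) := by
        rw [mul_add]
        have h9 : (Φ' + r * (κ * K * N)) * ((r : ℝ) / K) ≤
            (Φ + (r + 1) * (κ * K * N)) * (r / K) := by
          apply mul_le_mul_of_nonneg_right _ (by positivity)
          linarith
        linarith
      have h9 : Φ / K ≤ (Φ + (r + 1) * (κ * K * N)) * (1 / K) := by
        rw [div_eq_mul_one_div]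
        apply mul_le_mul_of_nonneg_right _ (by positivity)
        have : 0 ≤ ((r : ℝ) + 1) * (κ * K * N) := by positivity
        linarith
      have h10 : (Φ + κ * K * N - Φ') / (a * K) + (Φ' + r * (κ * K * N)) * (1 / (a * K)) =
          (Φ + (r + 1) * (κ * K * N)) * (1 / (a * K)) := by
        field_simp
        ring
      have h11 : (Φ + ((r : ℝ) + 1) * (κ * K * N)) * (1 / (a * K) + (r + 1) / K) =
          (Φ + (r + 1) * (κ * K * N)) * (1 / (a * K)) +
            (Φ + (r + 1) * (κ * K * N)) * (r / K) +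
            (Φ + (r + 1) * (κ * K * N)) * (1 / K) := by
        ring
      push_cast
      rw [h11]
      linarith

open Classical in
/-- **The super-round.** -/
theorem super (m k : ℕ) (T : SimpleGraph (Fin (m + 1))) (hT : T.IsTree) (γ : ℝ) (hγ : 0 < γ) :
    ∃ (L : ℕ) (η : ℝ), 1 ≤ L ∧ 0 < η ∧ η ≤ 1 ∧
      ∀ (V : Type) [Fintype V] (G : SimpleGraph V) (d : ℕ) (I : Type) [Fintype I]
        (A : I → Finset V) (c : I → V → ℕ) (n : I → ℕ) (s : I → ℝ) (R : ℝ),
        G.CliqueFree k → IsEmpty (T ↪g G) → (∀ v, (nb G v).card ≤ d) →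
        (∀ i, 0 < s i) → (∀ i v, ((nb (cell G (A i) (c i)) v).card : ℝ) ≤ s i) →
        (∀ i v, c i v < n i) →
        (∀ v, R ≤ ((univ.filter (fun i => v ∈ A i)).card : ℝ)) →
        4 * Real.exp (-(η ^ 2 / 4 * R)) * (1 + d : ℝ) ^ 6 ≤ 1 →
        ∃ (B : ℕ → I → Finset V) (g : ℕ → I → V → ℕ),
          (∀ j i v, g j i v < n i * 2 ^ j * (m + 1)) ∧
          (∀ j, j < 2 * L → ∀ i v, ((nb (cell G (B j i) (g j i)) v).card : ℝ) ≤
            γ * (8 * (s i / 2 ^ j))) ∧
          ∀ v, L * R ≤ ∑ j ∈ range (2 * L), ((univ.filter (fun i => v ∈ B j i)).card : ℝ) := by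
  obtain ⟨ε, hε, hround⟩ := round_step m k T hT γ hγ
  obtain ⟨M, hMd⟩ : ∃ M : ℝ, M = Real.sqrt (1152 / ε + ε) := ⟨_, rfl⟩
  have hM : 0 < M := by
    rw [hMd]
    exact Real.sqrt_pos.2 (by positivity)
  have hM2 : M ^ 2 = 1152 / ε + ε := by
    rw [hMd, Real.sq_sqrt (by positivity)]
  obtain ⟨a, ha⟩ : ∃ a : ℝ, a = ε / M ^ 2 := ⟨_, rfl⟩
  have ha0 : 0 < a := by rw [ha]; positivity
  have ha1 : a ≤ 1 := by
    rw [ha, hM2, div_le_one (by positivity)]
    have : 0 < 1152 / ε := by positivity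
    linarith
  have hM4 : 12 / M ^ 4 ≤ a / 96 := by
    have h1 : 1152 / ε ≤ M ^ 2 := by rw [hM2]; linarith
    have h2 : 1152 ≤ ε * M ^ 2 := by
      rw [div_le_iff₀ hε] at h1
      linarith
    rw [ha, div_div, div_le_div_iff₀ (by positivity) (by positivity)]
    have h3 : 0 < M ^ 2 := by positivity
    nlinarith
  obtain ⟨L, hL⟩ : ∃ L : ℕ, L = ⌈1 / a⌉₊ := ⟨_, rfl⟩
  have hL1 : 1 / a ≤ L := by rw [hL]; exact Nat.le_ceil _
  have hL2 : (L : ℝ) ≤ 2 / a := by
    have h1 : (L : ℝ) < 1 / a + 1 := by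
      rw [hL]
      exact Nat.ceil_lt_add_one (by positivity)
    have h2 : 1 ≤ 1 / a := by rw [le_div_iff₀ ha0]; linarith
    have h3 : 2 / a = 1 / a + 1 / a := by ring
    linarith
  have hL0 : 1 ≤ L := by
    have h2 : 1 ≤ 1 / a := by rw [le_div_iff₀ ha0]; linarith
    have h3 : (1 : ℝ) ≤ L := h2.trans hL1
    exact_mod_cast h3
  obtain ⟨Q, hQd⟩ : ∃ Q : ℕ, Q = ⌈384 / a⌉₊ := ⟨_, rfl⟩
  have hQ1 : 384 / a ≤ Q := by rw [hQd]; exact Nat.le_ceil _
  have hQ0' : (0 : ℝ) < Q := lt_of_lt_of_le (by positivity) hQ1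
  have hQ0 : 0 < Q := by exact_mod_cast hQ0'
  have hQ2 : (4 : ℝ) / Q ≤ a / 96 := by
    rw [div_le_div_iff₀ hQ0' (by norm_num)]
    rw [div_le_iff₀ ha0] at hQ1
    linarith
  refine ⟨L, a / 96, hL0, by positivity, by linarith, ?_⟩
  intro V _ G d I _ A c n s R hfree hemp hd hs hdeg hcn hR hlll
  obtain ⟨B, g, hB1, hB2, hB3, hB4⟩ := rounds (K := 8) (η := a / 96) (Q := Q) hγ hε hM
    (by positivity) hQ0 (by norm_num)
    (hround M (a / 96) Q hM (by positivity) (by linarith) hQ0) V G d I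
    (fun v => univ.filter (fun i => v ∈ A i)) R hfree hemp hd hR hlll (2 * L) A c s hs
    (by
      intro i v
      have := hdeg i v
      have := hs i
      linarith)
  refine ⟨B, g, fun j i v => hB2 j i v _ (hcn i v), hB3, ?_⟩
  intro v
  have h1 := hB4 v
  obtain ⟨N, hN⟩ : ∃ N : ℝ, N = ((univ.filter (fun i => v ∈ A i)).card : ℝ) := ⟨_, rfl⟩
  have hN0 : 0 ≤ N := by rw [hN]; exact Nat.cast_nonneg _
  have hRv := hR v
  rw [← hN] at h1 hRv
  have h2 : ∑ i ∈ univ.filter (fun i => v ∈ A i), pot G 8 (A i) (c i) (s i) v ≤ N := by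
    rw [hN]
    have h3 : ∀ i ∈ univ.filter (fun i => v ∈ A i), pot G 8 (A i) (c i) (s i) v ≤ 1 := by
      intro i hi
      rw [Finset.mem_filter] at hi
      unfold pot
      rw [if_pos hi.2, div_le_one (hs i)]
      exact hdeg i v
    refine (Finset.sum_le_sum h3).trans (le_of_eq ?_)
    rw [Finset.sum_const, nsmul_eq_mul, mul_one]
  obtain ⟨Φ, hΦ⟩ : ∃ Φ : ℝ, Φ = ∑ i ∈ univ.filter (fun i => v ∈ A i),
    pot G 8 (A i) (c i) (s i) v := ⟨_, rfl⟩
  rw [← hΦ] at h1 h2
  rw [← ha] at h1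
  have hLr : (0 : ℝ) < L := by exact_mod_cast hL0
  have h3 : (((2 * L : ℕ) : ℝ)) * ((12 / M ^ 4 + 4 / Q + a / 96) * 8 * N) ≤ N := by
    have h4 : 12 / M ^ 4 + 4 / (Q : ℝ) + a / 96 ≤ a / 32 := by linarith
    have h5 : (L : ℝ) * a ≤ 2 := by
      rw [le_div_iff₀ ha0] at hL2
      exact hL2
    push_cast
    have h6 : (12 / M ^ 4 + 4 / (Q : ℝ) + a / 96) * 8 * N ≤ a / 32 * 8 * N := by
      apply mul_le_mul_of_nonneg_right _ hN0
      linarith
    have h7 := mul_le_mul_of_nonneg_left h6 (show (0 : ℝ) ≤ 2 * L by positivity)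
    have h8 : 2 * (L : ℝ) * (a / 32 * 8 * N) = (L * a) * (N / 2) := by ring
    rw [h8] at h7
    have h9 := mul_le_mul_of_nonneg_right h5 (show 0 ≤ N / 2 by positivity)
    linarith
  have h4 : 1 / (a * 8) + ((2 * L : ℕ) : ℝ) / 8 ≤ 3 * L / 8 := by
    push_cast
    have : 1 / (a * 8) = (1 / a) / 8 := by
      field_simp
    rw [this]
    linarith
  have h5 : (Φ + ((2 * L : ℕ) : ℝ) * ((12 / M ^ 4 + 4 / Q + a / 96) * 8 * N)) *
      (1 / (a * 8) + ((2 * L : ℕ) : ℝ) / 8) ≤ (2 * N) * (3 * L / 8) := by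
    apply mul_le_mul _ h4 (by positivity) (by positivity)
    linarith
  have h6 := h1.trans h5
  have h7 : ∑ j ∈ range (2 * L), ((univ.filter (fun i => v ∈ B j i)).card : ℝ) +
      ∑ j ∈ range (2 * L), (((univ.filter (fun i => v ∈ A i)).filter
        (fun i => v ∉ B j i)).card : ℝ) = 2 * L * N := by
    rw [← Finset.sum_add_distrib]
    have h8 : ∀ j ∈ range (2 * L), ((univ.filter (fun i => v ∈ B j i)).card : ℝ) +
        (((univ.filter (fun i => v ∈ A i)).filter (fun i => v ∉ B j i)).card : ℝ) = N := by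
      intro j _
      rw [hN, ← Nat.cast_add]
      congr 1
      have h9 : univ.filter (fun i => v ∈ B j i) =
          (univ.filter (fun i => v ∈ A i)).filter (fun i => v ∈ B j i) := by
        ext i
        simp only [Finset.mem_filter, Finset.mem_univ, true_and]
        constructor
        · intro h
          exact ⟨hB1 j i h, h⟩
        · intro h
          exact h.2
      rw [h9]
      exact Finset.card_filter_add_card_filter_not _
    rw [Finset.sum_congr rfl h8, Finset.sum_const, Finset.card_range, nsmul_eq_mul]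
    push_cast
    ring
  have h8 : (L : ℝ) * R ≤ L * N := mul_le_mul_of_nonneg_left hRv hLr.le
  have h9 : 0 ≤ (L : ℝ) * N := by positivity
  nlinarith

end Pool.Agent.J4.H79.GS
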